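import Mathlib

/-!
# Internal topology in models of ZF

All notions below are *internal* to an arbitrary structure `(M, ∈)`: a type `M` with a binary
relation, written `x ∈ a` through an arbitrary instance of `Membership M M`.
-/

universe u

namespace Pool.Agent.MP_5db68c_lc

/-! ## First-order formulas and the theory ZF -/

/-- First-order formulas of the language of set theory (one binary relation symbol and equality),
with de Bruijn indices as variables. -/
inductive Fml : Type
  | mem : ℕ → ℕ → Fml
  | eq : ℕ → ℕ → Fml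
  | neg : Fml → Fml
  | and : Fml → Fml → Fml
  | all : Fml → Fml

/-- The assignment `x, v 0, v 1, v 2, …`. -/
def push {M : Type u} (x : M) (v : ℕ → M) : ℕ → M
  | 0 => x
  | n + 1 => v n

/-- Tarski satisfaction in `(M, ∈)` of a formula under an assignment `v` of its free variables.
(The quantifier `all` binds the variable with index `0`.) -/
def Sat {M : Type u} [Membership M M] : Fml → (ℕ → M) → Prop
  | .mem i j, v => v i ∈ v j
  | .eq i j, v => v i = v j
  | .neg φ, v => ¬ Sat φ v
  | .and φ ψ, v => Sat φ v ∧ Sat ψ v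
  | .all φ, v => ∀ x : M, Sat φ (push x v)

section

variable {M : Type u} [Membership M M]

/-- `w` is an inductive set: it has the empty set as a member and with `n` also `n ∪ {n}`. -/
def IsInductive (w : M) : Prop :=
  (∃ e : M, e ∈ w ∧ ∀ x : M, x ∉ e) ∧
    ∀ n : M, n ∈ w → ∃ s : M, s ∈ w ∧ ∀ x : M, x ∈ s ↔ x ∈ n ∨ x = n

end

/-- `(M, ∈)` is a model of Zermelo-Fraenkel set theory `ZF` (no axiom of choice): extensionality,
foundation, pairing, union, power set, infinity and the schemas of separation and replacement for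
all first-order formulas with parameters. -/
structure ModelZF (M : Type u) [Membership M M] : Prop where
  extensionality : ∀ a b : M, (∀ x : M, x ∈ a ↔ x ∈ b) → a = b
  foundation : ∀ a : M, (∃ x : M, x ∈ a) → ∃ x : M, x ∈ a ∧ ∀ y : M, y ∈ x → y ∉ a
  pairing : ∀ a b : M, ∃ c : M, ∀ x : M, x ∈ c ↔ x = a ∨ x = b
  union : ∀ a : M, ∃ b : M, ∀ x : M, x ∈ b ↔ ∃ y : M, y ∈ a ∧ x ∈ y
  powerset : ∀ a : M, ∃ b : M, ∀ x : M, x ∈ b ↔ ∀ y : M, y ∈ x → y ∈ a
  infinity : ∃ w : M, IsInductive w
  separation : ∀ (φ : Fml) (v : ℕ → M) (a : M),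
    ∃ b : M, ∀ x : M, x ∈ b ↔ x ∈ a ∧ Sat φ (push x v)
  replacement : ∀ (φ : Fml) (v : ℕ → M) (a : M),
    (∀ x : M, x ∈ a → ∃! y : M, Sat φ (push y (push x v))) →
      ∃ b : M, ∀ y : M, y ∈ b ↔ ∃ x : M, x ∈ a ∧ Sat φ (push y (push x v))

/-! ## Pairs, functions, natural numbers, finite and countable sets inside `M` -/

section

variable {M : Type u} [Membership M M]

/-- `p` is the Kuratowski ordered pair `(x, y) = {{x}, {x, y}}`. -/
def IsPair (p x y : M) : Prop :=
  ∀ z : M, z ∈ p ↔ (∀ w : M, w ∈ z ↔ w = x) ∨ (∀ w : M, w ∈ z ↔ w = x ∨ w = y)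

/-- `p` is the ordered triple `((x, y), z)`. -/
def IsTriple (p x y z : M) : Prop := ∃ q : M, IsPair q x y ∧ IsPair p q z

/-- The type of the members of `a`. -/
abbrev El (a : M) : Type u := {x : M // x ∈ a}

/-- The map `f` from the members of `a` to `M` is (the graph of) a function belonging to `M`. -/
def FunIn {a : M} (f : El a → M) : Prop :=
  ∃ g : M, ∀ p : M, p ∈ g ↔ ∃ x : El a, IsPair p x.1 (f x)

/-- The binary map `f` from pairs of members of `a`, `b` to `M` is (the graph of) a function
belonging to `M`. -/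
def FunIn₂ {a b : M} (f : El a → El b → M) : Prop :=
  ∃ g : M, ∀ p : M, p ∈ g ↔ ∃ (x : El a) (y : El b), IsTriple p x.1 y.1 (f x y)

/-- The binary relation `r` between members of `a` and of `b` belongs to `M`. -/
def RelIn {a b : M} (r : El a → El b → Prop) : Prop :=
  ∃ g : M, ∀ p : M, p ∈ g ↔ ∃ (x : El a) (y : El b), IsPair p x.1 y.1 ∧ r x y

/-- `w` is the set `ω` of natural numbers of `M`: the least inductive set. -/
def IsOmega (w : M) : Prop :=
  IsInductive w ∧ ∀ w' : M, IsInductive w' → ∀ n : M, n ∈ w → n ∈ w'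

/-- `a` is finite in `M`: some bijection belonging to `M` maps a natural number of `M` onto `a`. -/
def FiniteIn (a : M) : Prop :=
  ∃ w : M, IsOmega w ∧ ∃ n : M, n ∈ w ∧
    ∃ f : El n → El a, FunIn (fun i => (f i).1) ∧ Function.Bijective f

/-- `a` is countable in `M`: some bijection belonging to `M` maps `a` onto a subset of `ω`. -/
def CountableIn (a : M) : Prop :=
  ∃ w : M, IsOmega w ∧ ∃ s : M, (∀ n : M, n ∈ s → n ∈ w) ∧
    ∃ f : El a → El s, FunIn (fun i => (f i).1) ∧ Function.Bijective f

/-! ## Topological spaces inside `M` -/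

/-- `t` is a topology on `X` (in `M`). -/
structure IsTopology (X t : M) : Prop where
  subset : ∀ U : M, U ∈ t → ∀ x : M, x ∈ U → x ∈ X
  whole : X ∈ t
  inter : ∀ U V W : M, U ∈ t → V ∈ t → (∀ x : M, x ∈ W ↔ x ∈ U ∧ x ∈ V) → W ∈ t
  sUnion : ∀ s W : M, (∀ U : M, U ∈ s → U ∈ t) → (∀ x : M, x ∈ W ↔ ∃ U : M, U ∈ s ∧ x ∈ U) → W ∈ t

/-- The space `(X, t)` is compact (in `M`): every open cover has a finite subcover. -/
def IsCompactIn (X t : M) : Prop :=
  ∀ c : M, (∀ U : M, U ∈ c → U ∈ t) → (∀ x : M, x ∈ X → ∃ U : M, U ∈ c ∧ x ∈ U) →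
    ∃ c' : M, (∀ U : M, U ∈ c' → U ∈ c) ∧ FiniteIn c' ∧
      ∀ x : M, x ∈ X → ∃ U : M, U ∈ c' ∧ x ∈ U

/-- The space `(X, t)` is Hausdorff (in `M`). -/
def IsHausdorffIn (X t : M) : Prop :=
  ∀ x y : M, x ∈ X → y ∈ X → x ≠ y →
    ∃ U V : M, U ∈ t ∧ V ∈ t ∧ x ∈ U ∧ y ∈ V ∧ ∀ z : M, ¬ (z ∈ U ∧ z ∈ V)

end

/-! ## The real numbers of `M` -/

/-- A complete ordered field of `M` (the real numbers of `M`): a set `carrier` of `M` with an
ordered field structure on its members, whose addition, multiplication and order belong to `M`,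
and in which every subset *belonging to `M`* that is nonempty and bounded above has a least
upper bound. -/
structure RealsIn (M : Type u) [Membership M M] where
  carrier : M
  [field : Field (El carrier)]
  [order : LinearOrder (El carrier)]
  [ordered : IsStrictOrderedRing (El carrier)]
  add_in : FunIn₂ (fun x y : El carrier => (x + y).1)
  mul_in : FunIn₂ (fun x y : El carrier => (x * y).1)
  le_in : RelIn (fun x y : El carrier => x ≤ y)
  complete : ∀ s : M, (∃ x : El carrier, x.1 ∈ s) →
    (∃ b : El carrier, ∀ x : El carrier, x.1 ∈ s → x ≤ b) →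
      ∃ b : El carrier, IsLUB {x : El carrier | x.1 ∈ s} b

attribute [instance] RealsIn.field RealsIn.order RealsIn.ordered

section

variable {M : Type u} [Membership M M]

/-- `d` is a quasi-metric on `X` belonging to `M`, with values in the real numbers `K` of `M`. -/
structure IsQuasiMetric (K : RealsIn M) (X : M) (d : El X → El X → El K.carrier) : Prop where
  mem : FunIn₂ (fun x y => (d x y).1)
  nonneg : ∀ x y, 0 ≤ d x y
  self : ∀ x, d x x = 0
  triangle : ∀ x y z, d x y ≤ d x z + d z y
  eq_of_zero : ∀ x y, d x y = 0 → x = y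

/-- `d` is a metric on `X` belonging to `M`, with values in the real numbers `K` of `M`. -/
structure IsMetric (K : RealsIn M) (X : M) (d : El X → El X → El K.carrier) : Prop
    extends IsQuasiMetric K X d where
  symm : ∀ x y, d x y = d y x

/-- `t` is the topology `τ(d)`: a set `V` of `M` is in `t` iff `V ⊆ X` and for each `x ∈ V` there
is a real `ε > 0` with `{y ∈ X : d x y < ε} ⊆ V`. -/
def IsInduced (K : RealsIn M) (X t : M) (d : El X → El X → El K.carrier) : Prop :=
  ∀ V : M, V ∈ t ↔ (∀ x : M, x ∈ V → x ∈ X) ∧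
    ∀ x : El X, x.1 ∈ V → ∃ ε : El K.carrier, 0 < ε ∧ ∀ y : El X, d x y < ε → y.1 ∈ V

/-- The space `(X, t)` is quasi-metrizable in `M`. -/
def QuasiMetrizable (X t : M) : Prop :=
  ∃ (K : RealsIn M) (d : El X → El X → El K.carrier), IsQuasiMetric K X d ∧ IsInduced K X t d

/-- The space `(X, t)` is metrizable in `M`. -/
def Metrizable (X t : M) : Prop :=
  ∃ (K : RealsIn M) (d : El X → El X → El K.carrier), IsMetric K X d ∧ IsInduced K X t d

/-! ## Products of families of spaces inside `M` -/

/-- `P` is the product set `∏_{j ∈ J} X j`: its members are the functions of `M` with domain `J`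
that map each `j` to a member of `X j`. -/
def IsProductSet {J : M} (X : El J → M) (P : M) : Prop :=
  ∀ f : M, f ∈ P ↔ ∃ φ : El J → M, (∀ j, φ j ∈ X j) ∧ ∀ p : M, p ∈ f ↔ ∃ j : El J, IsPair p j.1 (φ j)

/-- `T` is a topology on the product set `P` of the `X j` for which each projection to
`(X j, t j)` is continuous. -/
def ProjectionsContinuous {J : M} (t : El J → M) (P T : M) : Prop :=
  IsTopology P T ∧ ∀ (j : El J) (U : M), U ∈ t j → ∀ W : M,
    (∀ f : M, f ∈ W ↔ f ∈ P ∧ ∃ y : M, y ∈ U ∧ ∃ p : M, p ∈ f ∧ IsPair p j.1 y) → W ∈ T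

/-- `T` is the product topology on the product set `P`: the coarsest topology for which all
projections are continuous. -/
def IsProductTopology {J : M} (t : El J → M) (P T : M) : Prop :=
  ProjectionsContinuous t P T ∧ ∀ T' : M, ProjectionsContinuous t P T' → ∀ U : M, U ∈ T → U ∈ T'

/-- `(P, T)` is the Tychonoff product of the family `(X j, t j)`, `j ∈ J`, of topological spaces
(the family belonging to `M`). -/
structure IsProduct {J : M} (X t : El J → M) (P T : M) : Prop where
  family_in : ∃ g : M, ∀ p : M, p ∈ g ↔ ∃ j : El J, IsTriple p j.1 (X j) (t j)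
  spaces : ∀ j, IsTopology (X j) (t j)
  product_set : IsProductSet X P
  product_topology : IsProductTopology t P T

end

/-- `CPM_le(C, M)` in `M`: every countable product of compact metrizable spaces is metrizable. -/
def CPMle (M : Type u) [Membership M M] : Prop :=
  ∀ (J : M) (X t : El J → M) (P T : M), CountableIn J → IsProduct X t P T →
    (∀ j, IsCompactIn (X j) (t j) ∧ Metrizable (X j) (t j)) → Metrizable P T

/-- In `M`: every countable product of compact Hausdorff quasi-metrizable spaces is
quasi-metrizable. -/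
def CPQle (M : Type u) [Membership M M] : Prop :=
  ∀ (J : M) (X t : El J → M) (P T : M), CountableIn J → IsProduct X t P T →
    (∀ j, IsCompactIn (X j) (t j) ∧ IsHausdorffIn (X j) (t j) ∧ QuasiMetrizable (X j) (t j)) →
      QuasiMetrizable P T

end Pool.Agent.MP_5db68c_lc
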