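import Pool.Agent.Lib.MP_5db68c_lc.Logic

/-!
# Typed definability over a model of ZF
-/

universe u v w

namespace Pool.Agent.MP_5db68c_lc

/-- `M` is a model of ZF, as a class. -/
class IsZF (M : Type u) [Membership M M] : Prop where
  zf : ModelZF M

section

variable (M : Type u) [Membership M M] [hM : IsZF M]

instance instNonemptyOfZF : Nonempty M := ⟨hM.zf.infinity.choose⟩

variable {M}

theorem ext' {a b : M} (h : ∀ x : M, x ∈ a ↔ x ∈ b) : a = b := hM.zf.extensionality a b h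

theorem exists_sep {P : M → Prop} (hP : D1 P) (a : M) : ∃ b : M, ∀ x : M, x ∈ b ↔ x ∈ a ∧ P x := by
  obtain ⟨φ, c, h⟩ := hP.out
  obtain ⟨b, hb⟩ := hM.zf.separation (φ.rename fun n => if n = 0 then 0 else
    if n % 2 = 0 then n - 1 else n + 1) (join (fun _ => a) c) a
  refine ⟨b, fun x => ?_⟩
  rw [hb, sat_rename]
  have := h (push x (fun _ => a))
  rw [show P x ↔ P (push x (fun _ => a) 0) from Iff.rfl, this]
  apply iff_of_eq
  congr 2
  apply eq_join
  · intro n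
    simp only [Function.comp]
    rcases n with _ | n
    · rfl
    · rw [if_neg (by omega), if_pos (by omega)]
      have : 2 * (n + 1) - 1 = 2 * n + 1 := by omega
      rw [this]
      exact join_even (fun _ => a) c n
  · intro n
    simp only [Function.comp]
    rw [if_neg (by omega), if_neg (by omega)]
    exact join_odd (fun _ => a) c n

theorem exists_sing (x : M) : ∃ z : M, ∀ w : M, w ∈ z ↔ w = x := by
  obtain ⟨c, hc⟩ := hM.zf.pairing x x
  exact ⟨c, fun w => by simp [hc]⟩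

theorem exists_isPair (x y : M) : ∃ p : M, IsPair p x y := by
  obtain ⟨s, hs⟩ := exists_sing x
  obtain ⟨t, ht⟩ := hM.zf.pairing x y
  obtain ⟨p, hp⟩ := hM.zf.pairing s t
  refine ⟨p, fun z => ?_⟩
  rw [hp]
  constructor
  · rintro (rfl | rfl)
    · exact Or.inl hs
    · exact Or.inr ht
  · rintro (h | h)
    · exact Or.inl (ext' fun w => by rw [h, hs])
    · exact Or.inr (ext' fun w => by rw [h, ht])

theorem IsPair.unique {p q x y : M} (hp : IsPair p x y) (hq : IsPair q x y) : p = q :=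
  ext' fun z => by rw [hp z, hq z]

omit hM [Membership M M] in
theorem pair_aux {x y x' y' : M}
    (h : ∀ w : M, (w = x ∨ w = y) ↔ (w = x' ∨ w = y')) (hx : x = x') : y = y' := by
  subst hx
  by_cases hy : y = x
  · subst hy
    rcases (h y').2 (Or.inr rfl) with h' | h' <;> exact h'.symm
  · rcases (h y).1 (Or.inr rfl) with h' | h'
    · exact absurd h' hy
    · exact h'

theorem IsPair.inj {p x y x' y' : M} (hp : IsPair p x y) (hq : IsPair p x' y') :
    x = x' ∧ y = y' := by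
  obtain ⟨s, hs⟩ := exists_sing x
  obtain ⟨t, ht⟩ := hM.zf.pairing x y
  obtain ⟨s', hs'⟩ := exists_sing x'
  obtain ⟨t', ht'⟩ := hM.zf.pairing x' y'
  have h1 := (hq s).1 ((hp s).2 (Or.inl hs))
  have h2 := (hq t).1 ((hp t).2 (Or.inr ht))
  have h3 := (hp s').1 ((hq s').2 (Or.inl hs'))
  have h4 := (hp t').1 ((hq t').2 (Or.inr ht'))
  have hx : x = x' := by
    rcases h1 with h1 | h1
    · exact (h1 x).1 ((hs x).2 rfl)
    · exact ((hs x').1 ((h1 x').2 (Or.inl rfl))).symm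
  refine ⟨hx, ?_⟩
  subst hx
  rcases h2 with h2 | h2
  · -- {x,y} = {x}
    have hy : y = x := (h2 y).1 ((ht y).2 (Or.inr rfl))
    subst hy
    rcases h4 with h4 | h4
    · exact ((h4 y').1 ((ht' y').2 (Or.inr rfl))).symm
    · rcases (h4 y').1 ((ht' y').2 (Or.inr rfl)) with h | h <;> exact h.symm
  · refine pair_aux (x := x) (x' := x) (fun w => ?_) rfl
    rw [← ht w, h2 w]

/-- The ordered pair in `M`. -/
noncomputable def pr (x y : M) : M := (exists_isPair x y).choose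

theorem isPair_pr (x y : M) : IsPair (pr x y) x y := (exists_isPair x y).choose_spec

theorem isPair_iff {p x y : M} : IsPair p x y ↔ p = pr x y :=
  ⟨fun h => h.unique (isPair_pr x y), fun h => h ▸ isPair_pr x y⟩

theorem pr_inj {x y x' y' : M} : pr x y = pr x' y' ↔ x = x' ∧ y = y' :=
  ⟨fun h => (isPair_pr x y).inj (h ▸ isPair_pr x' y'), fun h => by rw [h.1, h.2]⟩

theorem isTriple_iff {p x y z : M} : IsTriple p x y z ↔ p = pr (pr x y) z := by
  unfold IsTriple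
  simp only [isPair_iff]
  constructor
  · rintro ⟨q, rfl, h⟩; exact h
  · intro h; exact ⟨_, rfl, h⟩

end

/-! ## Coded types -/

section Coded

variable (M : Type u) [Membership M M]

/-- A type all of whose elements are coded by elements of `M`, the set of codes being definable. -/
class Coded (Γ : Type v) where
  code : Γ → M
  inj : Function.Injective code
  rng : D1 (fun m : M => ∃ γ, code γ = m)

variable {Γ : Type v} {Δ : Type w} {Θ : Type*}

/-- definable predicates -/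
class DP [Coded M Γ] (P : Γ → Prop) : Prop where
  out : ∃ P' : M → Prop, D1 P' ∧ ∀ γ, P γ ↔ P' (Coded.code γ)

/-- definable functions -/
class DF [Coded M Γ] [Coded M Δ] (f : Γ → Δ) : Prop where
  out : ∃ G : M → M → Prop, D2 G ∧ ∀ γ δ, f γ = δ ↔ G (Coded.code γ) (Coded.code δ)

variable [hM : IsZF M]

instance Coded.self : Coded M M where
  code := id
  inj := Function.injective_id
  rng := Dfb.congr (P := fun _ => True) inferInstance (fun v => by simp)

instance Coded.el (a : M) : Coded M (El a) where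
  code := Subtype.val
  inj := Subtype.val_injective
  rng := Dfb.congr (P := fun v => v 0 ∈ a) inferInstance (fun v => by simp)

noncomputable instance Coded.prod [Coded M Γ] [Coded M Δ] : Coded M (Γ × Δ) where
  code := fun p => pr (Coded.code p.1) (Coded.code p.2)
  inj := by
    rintro ⟨a, b⟩ ⟨c, d⟩ h
    simp only [pr_inj] at h
    rw [Coded.inj h.1, Coded.inj h.2]
  rng := by
    have h1 := @Coded.rng M _ Γ _
    have h2 := @Coded.rng M _ Δ _
    have : Dfb (fun v : ℕ → M => ∃ a : M, (∃ γ : Γ, Coded.code γ = a) ∧ ∃ b : M,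
        (∃ δ : Δ, Coded.code δ = b) ∧ IsPair (v 0) a b) := by
      refine @Dfb.ex _ _ (fun (v : ℕ → M) (a : M) => (∃ γ : Γ, Coded.code γ = a) ∧ ∃ b : M,
        (∃ δ : Δ, Coded.code δ = b) ∧ IsPair (v 0) a b) ?_
      refine @Dfb.and _ _ _ _ (D1.app h1 _) ?_
      refine @Dfb.ex _ _ (fun (w : ℕ → M) (b : M) => 
        (∃ δ : Δ, Coded.code δ = b) ∧ IsPair (w 1) (w 0) b) ?_
      refine @Dfb.and _ _ _ _ (D1.app h2 _) ?_
      infer_instance
    refine this.congr fun v => ?_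
    constructor
    · rintro ⟨⟨γ, δ⟩, h⟩
      exact ⟨_, ⟨γ, rfl⟩, _, ⟨δ, rfl⟩, by rw [← h]; exact isPair_pr _ _⟩
    · rintro ⟨_, ⟨γ, rfl⟩, _, ⟨δ, rfl⟩, h⟩
      exact ⟨(γ, δ), (isPair_iff.1 h).symm⟩

variable {M}
variable [Coded M Γ] [Coded M Δ] [Coded M Θ]

/-- Two-variable form of definability. -/
theorem DP.iff₂ {Q : Γ × Δ → Prop} : DP M Q ↔
    ∃ G : M → M → Prop, D2 G ∧ ∀ γ δ, Q (γ, δ) ↔ G (Coded.code γ) (Coded.code δ) := by
  constructor
  · rintro ⟨P', hP', h⟩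
    refine ⟨fun a b => ∃ q : M, IsPair q a b ∧ P' q, ?_, fun γ δ => ?_⟩
    · refine @Dfb.ex _ _ (fun (v : ℕ → M) (q : M) => IsPair q (v 0) (v 1) ∧ P' q) ?_
      exact @Dfb.and _ _ _ _ inferInstance (D1.app hP' _)
    · rw [h]
      constructor
      · intro hh; exact ⟨_, isPair_pr _ _, hh⟩
      · rintro ⟨q, hq, hh⟩
        rw [isPair_iff] at hq
        subst hq
        exact hh
  · rintro ⟨G, hG, h⟩
    refine ⟨fun q => ∃ a : M, ∃ b : M, IsPair q a b ∧ G a b, ?_, ?_⟩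
    · refine @Dfb.ex _ _ (fun (v : ℕ → M) (a : M) => ∃ b : M, IsPair (v 0) a b ∧ G a b) ?_
      refine @Dfb.ex _ _ (fun (v : ℕ → M) (b : M) => IsPair (v 1) (v 0) b ∧ G (v 0) b) ?_
      exact @Dfb.and _ _ _ _ inferInstance (D2.app hG _ _)
    · rintro ⟨γ, δ⟩
      rw [h]
      constructor
      · intro hh; exact ⟨_, _, isPair_pr _ _, hh⟩
      · rintro ⟨a, b, hq, hh⟩
        have := (isPair_pr _ _).inj hq
        rw [this.1, this.2]
        exact hh

omit hM in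
theorem DP.congr {P Q : Γ → Prop} (hP : DP M P) (h : ∀ γ, Q γ ↔ P γ) : DP M Q := by
  obtain ⟨P', h1, h2⟩ := hP.out
  exact ⟨P', h1, fun γ => (h γ).trans (h2 γ)⟩

instance DP.const (p : Prop) : DP M (fun _ : Γ => p) :=
  ⟨fun _ => p, Dfb.const p, fun _ => Iff.rfl⟩

instance DP.not {P : Γ → Prop} [hP : DP M P] : DP M (fun γ => ¬ P γ) := by
  obtain ⟨P', h1, h2⟩ := hP.out
  exact ⟨fun m => ¬ P' m, @Dfb.not _ _ _ h1, fun γ => by rw [h2]⟩

instance DP.and {P Q : Γ → Prop} [hP : DP M P] [hQ : DP M Q] : DP M (fun γ => P γ ∧ Q γ) := by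
  obtain ⟨P', h1, h2⟩ := hP.out
  obtain ⟨Q', h3, h4⟩ := hQ.out
  exact ⟨fun m => P' m ∧ Q' m, @Dfb.and _ _ _ _ h1 h3, fun γ => by rw [h2, h4]⟩

instance DP.or {P Q : Γ → Prop} [hP : DP M P] [hQ : DP M Q] : DP M (fun γ => P γ ∨ Q γ) := by
  obtain ⟨P', h1, h2⟩ := hP.out
  obtain ⟨Q', h3, h4⟩ := hQ.out
  exact ⟨fun m => P' m ∨ Q' m, @Dfb.or _ _ _ _ h1 h3, fun γ => by rw [h2, h4]⟩

instance DP.imp {P Q : Γ → Prop} [hP : DP M P] [hQ : DP M Q] : DP M (fun γ => P γ → Q γ) := by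
  obtain ⟨P', h1, h2⟩ := hP.out
  obtain ⟨Q', h3, h4⟩ := hQ.out
  exact ⟨fun m => P' m → Q' m, @Dfb.imp _ _ _ _ h1 h3, fun γ => by rw [h2, h4]⟩

instance DP.iff {P Q : Γ → Prop} [hP : DP M P] [hQ : DP M Q] : DP M (fun γ => P γ ↔ Q γ) := by
  obtain ⟨P', h1, h2⟩ := hP.out
  obtain ⟨Q', h3, h4⟩ := hQ.out
  exact ⟨fun m => P' m ↔ Q' m, @Dfb.iff _ _ _ _ h1 h3, fun γ => by rw [h2, h4]⟩

instance DP.ex {Q : Γ → Δ → Prop} [hQ : DP M (fun p : Γ × Δ => Q p.1 p.2)] :
    DP M (fun γ => ∃ x : Δ, Q γ x) := by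
  obtain ⟨G, hG, h⟩ := DP.iff₂.1 hQ
  have hr := @Coded.rng M _ Δ _
  refine ⟨fun a => ∃ b : M, (∃ δ : Δ, Coded.code δ = b) ∧ G a b, ?_, fun γ => ?_⟩
  · refine @Dfb.ex _ _ (fun (v : ℕ → M) (b : M) => (∃ δ : Δ, Coded.code δ = b) ∧ G (v 0) b) ?_
    exact @Dfb.and _ _ _ _ (D1.app hr _) (D2.app hG _ _)
  · constructor
    · rintro ⟨x, hx⟩
      exact ⟨_, ⟨x, rfl⟩, (h γ x).1 hx⟩
    · rintro ⟨_, ⟨x, rfl⟩, hx⟩
      exact ⟨x, (h γ x).2 hx⟩

instance DP.all {Q : Γ → Δ → Prop} [hQ : DP M (fun p : Γ × Δ => Q p.1 p.2)] :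
    DP M (fun γ => ∀ x : Δ, Q γ x) :=
  DP.congr (P := fun γ => ¬ ∃ x : Δ, ¬ Q γ x) inferInstance (fun γ => by simp)

/-- graph form of definability of functions -/
theorem DF.iff_graph {f : Γ → Δ} : DF M f ↔ DP M (fun p : Γ × Δ => f p.1 = p.2) := by
  rw [DP.iff₂]
  exact ⟨fun h => h.out, fun h => ⟨h⟩⟩

instance (priority := 3000) DF.id : DF M (fun γ : Γ => γ) := by
  refine ⟨fun a b => a = b, Dfb.eq01, fun γ δ => ?_⟩
  exact ⟨fun h => by rw [h], fun h => Coded.inj h⟩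

omit hM in
theorem DF.comp {g : Δ → Θ} {f : Γ → Δ} (hg : DF M g) (hf : DF M f) :
    DF M (fun γ => g (f γ)) := by
  obtain ⟨F, hF, h1⟩ := hf.out
  obtain ⟨G, hG, h2⟩ := hg.out
  have hr := @Coded.rng M _ Δ _
  refine ⟨fun a c => ∃ b : M, (∃ δ : Δ, Coded.code δ = b) ∧ F a b ∧ G b c, ?_, fun γ θ => ?_⟩
  · refine @Dfb.ex _ _ (fun (v : ℕ → M) (b : M) => (∃ δ : Δ, Coded.code δ = b) ∧
      F (v 0) b ∧ G b (v 1)) ?_
    exact @Dfb.and _ _ _ _ (D1.app hr _) (@Dfb.and _ _ _ _ (D2.app hF _ _) (D2.app hG _ _))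
  · constructor
    · intro h
      exact ⟨_, ⟨f γ, rfl⟩, (h1 γ _).1 rfl, (h2 _ _).1 h⟩
    · rintro ⟨_, ⟨δ, rfl⟩, h3, h4⟩
      rw [← h1] at h3
      rw [← h2] at h4
      rw [h3, h4]

omit hM in
theorem DP.comp {P : Δ → Prop} {f : Γ → Δ} (hP : DP M P) (hf : DF M f) :
    DP M (fun γ => P (f γ)) := by
  obtain ⟨F, hF, h1⟩ := hf.out
  obtain ⟨P', hP', h2⟩ := hP.out
  have hr := @Coded.rng M _ Δ _
  refine ⟨fun a => ∃ b : M, (∃ δ : Δ, Coded.code δ = b) ∧ F a b ∧ P' b, ?_, fun γ => ?_⟩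
  · refine @Dfb.ex _ _ (fun (v : ℕ → M) (b : M) => (∃ δ : Δ, Coded.code δ = b) ∧
      F (v 0) b ∧ P' b) ?_
    exact @Dfb.and _ _ _ _ (D1.app hr _) (@Dfb.and _ _ _ _ (D2.app hF _ _) (D1.app hP' _))
  · constructor
    · intro h
      exact ⟨_, ⟨f γ, rfl⟩, (h1 γ _).1 rfl, (h2 _).1 h⟩
    · rintro ⟨_, ⟨δ, rfl⟩, h3, h4⟩
      rw [← h1] at h3
      rw [h3, h2]
      exact h4

instance (priority := 2900) DF.const (c : Δ) : DF M (fun _ : Γ => c) := by
  refine ⟨fun _ b => b = Coded.code c, ?_, fun γ δ => ?_⟩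
  · unfold D2; infer_instance
  · exact ⟨fun h => by rw [h], fun h => (Coded.inj h).symm⟩

theorem DF.fst' : DF M (fun p : Γ × Δ => p.1) := by
  refine ⟨fun q a => ∃ b : M, IsPair q a b, ?_, ?_⟩
  · unfold D2; infer_instance
  · rintro ⟨γ, δ⟩ γ'
    constructor
    · rintro rfl; exact ⟨_, isPair_pr _ _⟩
    · rintro ⟨b, hb⟩
      exact Coded.inj ((isPair_pr _ _).inj hb).1

theorem DF.snd' : DF M (fun p : Γ × Δ => p.2) := by
  refine ⟨fun q b => ∃ a : M, IsPair q a b, ?_, ?_⟩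
  · unfold D2; infer_instance
  · rintro ⟨γ, δ⟩ γ'
    constructor
    · rintro rfl; exact ⟨_, isPair_pr _ _⟩
    · rintro ⟨b, hb⟩
      exact Coded.inj ((isPair_pr _ _).inj hb).2

instance (priority := 2800) DF.fst {f : Γ → Δ × Θ} [hf : DF M f] : DF M (fun γ => (f γ).1) := DF.fst'.comp hf

instance (priority := 2800) DF.snd {f : Γ → Δ × Θ} [hf : DF M f] : DF M (fun γ => (f γ).2) := DF.snd'.comp hf

instance (priority := 2700) DF.pair {f : Γ → Δ} {g : Γ → Θ} [hf : DF M f] [hg : DF M g] :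
    DF M (fun γ => (f γ, g γ)) := by
  obtain ⟨F, hF, h1⟩ := hf.out
  obtain ⟨G, hG, h2⟩ := hg.out
  refine ⟨fun a q => ∃ b : M, ∃ c : M, IsPair q b c ∧ F a b ∧ G a c, ?_, ?_⟩
  · refine @Dfb.ex _ _ (fun (v : ℕ → M) (b : M) => ∃ c : M, IsPair (v 1) b c ∧ F (v 0) b ∧
      G (v 0) c) ?_
    refine @Dfb.ex _ _ (fun (v : ℕ → M) (c : M) => IsPair (v 2) (v 0) c ∧ F (v 1) (v 0) ∧
      G (v 1) c) ?_
    exact @Dfb.and _ _ _ _ inferInstance
      (@Dfb.and _ _ _ _ (D2.app hF _ _) (D2.app hG _ _))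
  · rintro γ ⟨δ, θ⟩
    constructor
    · intro h
      rw [Prod.mk.injEq] at h
      exact ⟨_, _, isPair_pr _ _, (h1 _ _).1 h.1, (h2 _ _).1 h.2⟩
    · rintro ⟨b, c, h3, h4, h5⟩
      have := (isPair_pr _ _).inj h3
      rw [← this.1, ← h1] at h4
      rw [← this.2, ← h2] at h5
      rw [h4, h5]

instance (priority := 2600) DF.val {a : M} {f : Γ → El a} [hf : DF M f] : DF M (fun γ => (f γ).1) := by
  refine DF.comp (g := fun x : El a => x.1) ?_ hf
  refine ⟨fun a b => a = b, Dfb.eq01, fun γ δ => ?_⟩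
  exact Iff.rfl

instance DF.code' : DF M (fun γ : Γ => (Coded.code γ : M)) :=
  ⟨fun a b => a = b, Dfb.eq01, fun _ _ => Iff.rfl⟩

instance DF.code {f : Γ → Δ} [hf : DF M f] : DF M (fun γ => (Coded.code (f γ) : M)) :=
  DF.code'.comp hf

instance DP.eq {f g : Γ → Δ} [hf : DF M f] [hg : DF M g] : DP M (fun γ => f γ = g γ) := by
  have h : DP M (fun p : Δ × Δ => p.1 = p.2) := by
    have := (DF.iff_graph (M := M) (f := fun γ : Δ => γ)).1 inferInstance
    exact this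
  exact DP.comp (P := fun p : Δ × Δ => p.1 = p.2) (f := fun γ => (f γ, g γ)) h inferInstance

instance DP.mem {f g : Γ → M} [hf : DF M f] [hg : DF M g] : DP M (fun γ => f γ ∈ g γ) := by
  have h : DP M (fun p : M × M => p.1 ∈ p.2) :=
    DP.iff₂.2 ⟨fun a b => a ∈ b, Dfb.mem01, fun _ _ => Iff.rfl⟩
  exact DP.comp (P := fun p : M × M => p.1 ∈ p.2) (f := fun γ => (f γ, g γ)) h inferInstance

theorem DP.app₂ {A B : Type*} [Coded M A] [Coded M B] {R : A → B → Prop}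
    (hR : DP M (fun p : A × B => R p.1 p.2)) {f : Γ → A} {g : Γ → B} (hf : DF M f) (hg : DF M g) :
    DP M (fun γ => R (f γ) (g γ)) :=
  DP.comp (P := fun p : A × B => R p.1 p.2) (f := fun γ => (f γ, g γ)) hR inferInstance

theorem DF.app₂ {A B : Type*} [Coded M A] [Coded M B] {h : A → B → Θ}
    (hh : DF M (fun p : A × B => h p.1 p.2)) {f : Γ → A} {g : Γ → B} (hf : DF M f) (hg : DF M g) :
    DF M (fun γ => h (f γ) (g γ)) :=
  DF.comp (g := fun p : A × B => h p.1 p.2) (f := fun γ => (f γ, g γ)) hh inferInstance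

/-- a function is definable as soon as it satisfies a definable functional relation -/
theorem DF.of_rel {f : Γ → Δ} {R : Γ → Δ → Prop} (hR : DP M (fun p : Γ × Δ => R p.1 p.2))
    (h : ∀ γ, R γ (f γ)) (hu : ∀ γ x y, R γ x → R γ y → x = y) : DF M f := by
  rw [DF.iff_graph]
  refine hR.congr ?_
  rintro ⟨γ, δ⟩
  constructor
  · intro hh
    have := h γ
    rw [show f γ = δ from hh] at this
    exact this
  · intro hh
    exact hu _ _ _ (h γ) hh

end Coded

end Pool.Agent.MP_5db68c_lc
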