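import Pool.Agent.Lib.MP_5db68c_lc.Defs

/-!
# Definability with parameters in a structure `(M, ∈)`
-/

universe u v w

namespace Pool.Agent.MP_5db68c_lc

variable {M : Type u} [Membership M M]

/-! ## Low level: contexts are sequences of elements of `M` -/

def lift (f : ℕ → ℕ) : ℕ → ℕ
  | 0 => 0
  | n + 1 => f n + 1

def Fml.rename : (ℕ → ℕ) → Fml → Fml
  | f, .mem i j => .mem (f i) (f j)
  | f, .eq i j => .eq (f i) (f j)
  | f, .neg φ => .neg (φ.rename f)
  | f, .and φ ψ => .and (φ.rename f) (ψ.rename f)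
  | f, .all φ => .all (φ.rename (lift f))

omit [Membership M M] in
theorem push_comp_lift (x : M) (v : ℕ → M) (f : ℕ → ℕ) :
    push x v ∘ lift f = push x (v ∘ f) := by
  funext n; cases n <;> rfl

theorem sat_rename (φ : Fml) : ∀ (f : ℕ → ℕ) (v : ℕ → M), Sat (φ.rename f) v ↔ Sat φ (v ∘ f) := by
  induction φ with
  | mem i j => intro f v; rfl
  | eq i j => intro f v; rfl
  | neg φ ih => intro f v; simp only [Fml.rename, Sat, ih]
  | and φ ψ ih1 ih2 => intro f v; simp only [Fml.rename, Sat, ih1, ih2]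
  | all φ ih =>
    intro f v
    simp only [Fml.rename, Sat]
    refine forall_congr' fun x => ?_
    rw [ih, push_comp_lift]

/-- interleave variables and parameters -/
def join (v c : ℕ → M) : ℕ → M := fun n => if n % 2 = 0 then v (n / 2) else c (n / 2)

omit [Membership M M] in
theorem join_even (v c : ℕ → M) (n : ℕ) : join v c (2 * n) = v n := by
  unfold join; rw [if_pos (by omega)]; congr 1; omega

omit [Membership M M] in
theorem join_odd (v c : ℕ → M) (n : ℕ) : join v c (2 * n + 1) = c n := by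
  unfold join; rw [if_neg (by omega)]; congr 1; omega

omit [Membership M M] in
theorem eq_join (w v c : ℕ → M) (h0 : ∀ n, w (2 * n) = v n) (h1 : ∀ n, w (2 * n + 1) = c n) :
    w = join v c := by
  funext n
  rcases Nat.even_or_odd' n with ⟨k, rfl | rfl⟩
  · rw [h0, join_even]
  · rw [h1, join_odd]

/-- Definability (with parameters) of a predicate of sequences. -/
class Dfb (P : (ℕ → M) → Prop) : Prop where
  out : ∃ (φ : Fml) (c : ℕ → M), ∀ v, P v ↔ Sat φ (join v c)

/-- Simultaneous substitution of variables or parameters. -/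
theorem Dfb.subst {P : (ℕ → M) → Prop} (hP : Dfb P) (σ : ℕ → ℕ ⊕ M) :
    Dfb (fun v : ℕ → M => P (fun i => Sum.elim v id (σ i))) := by
  obtain ⟨φ, c, h⟩ := hP.out
  classical
  by_cases hM : Nonempty M
  swap
  · exact ⟨.eq 0 0, c, fun v => (hM ⟨v 0⟩).elim⟩
  let m0 : M := Classical.choice hM
  refine ⟨φ.rename (fun n => if n % 2 = 0 then
      Sum.elim (fun j => 2 * j) (fun _ => 2 * n + 1) (σ (n / 2)) else 2 * n + 1),
    fun n => if n % 2 = 0 then Sum.elim (fun _ => m0) id (σ (n / 2)) else c (n / 2), ?_⟩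
  intro v
  rw [h, sat_rename]
  apply iff_of_eq
  congr 1
  symm
  apply eq_join
  · intro n
    simp only [Function.comp]
    rw [if_pos (by omega)]
    have : 2 * n / 2 = n := by omega
    rw [this]
    rcases hσ : σ n with j | m
    · simp only [Sum.elim_inl]; rw [join_even]
    · simp only [Sum.elim_inr]
      rw [join_odd, if_pos (by omega), this, hσ]; rfl
  · intro n
    simp only [Function.comp]
    rw [if_neg (by omega), join_odd, if_neg (by omega)]
    congr 1; omega

theorem Dfb.congr {P Q : (ℕ → M) → Prop} (hP : Dfb P) (h : ∀ v, Q v ↔ P v) : Dfb Q := by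
  obtain ⟨φ, c, h'⟩ := hP.out
  exact ⟨φ, c, fun v => (h v).trans (h' v)⟩

instance Dfb.not {P : (ℕ → M) → Prop} [hP : Dfb P] : Dfb (fun v => ¬ P v) := by
  obtain ⟨φ, c, h⟩ := hP.out
  exact ⟨.neg φ, c, fun v => by simp only [Sat, h]⟩

instance Dfb.and {P Q : (ℕ → M) → Prop} [hP : Dfb P] [hQ : Dfb Q] : Dfb (fun v => P v ∧ Q v) := by
  obtain ⟨φ, c, h⟩ := hP.out
  obtain ⟨ψ, d, h'⟩ := hQ.out
  refine ⟨.and (φ.rename fun n => if n % 2 = 0 then n else 2 * n - 1)
    (ψ.rename fun n => if n % 2 = 0 then n else 2 * n + 1), join c d, fun v => ?_⟩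
  simp only [Sat, sat_rename]
  rw [h, h']
  apply iff_of_eq
  congr 2
  · symm
    apply eq_join
    · intro n
      simp only [Function.comp]
      rw [if_pos (by omega), join_even]
    · intro n
      simp only [Function.comp]
      rw [if_neg (by omega)]
      have : 2 * (2 * n + 1) - 1 = 2 * (2 * n) + 1 := by omega
      rw [this, join_odd, join_even]
  · symm
    apply eq_join
    · intro n
      simp only [Function.comp]
      rw [if_pos (by omega), join_even]
    · intro n
      simp only [Function.comp]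
      rw [if_neg (by omega), join_odd, join_odd]

instance Dfb.all {Q : (ℕ → M) → M → Prop} [hQ : Dfb (fun w : ℕ → M => Q (fun i => w (i + 1)) (w 0))] :
    Dfb (fun v => ∀ x, Q v x) := by
  obtain ⟨φ, c, h⟩ := hQ.out
  refine ⟨.all (φ.rename fun n => if n = 0 then 0 else if n % 2 = 0 then n - 1 else n + 1), c,
    fun v => ?_⟩
  simp only [Sat, sat_rename]
  refine forall_congr' fun x => ?_
  have := h (push x v)
  have e : (fun i => push x v (i + 1)) = v := rfl
  rw [e] at this
  rw [show Q v x ↔ Q v (push x v 0) from Iff.rfl, this]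
  apply iff_of_eq
  congr 1
  symm
  apply eq_join
  · intro n
    simp only [Function.comp]
    rcases n with _ | n
    · rfl
    · rw [if_neg (by omega), if_pos (by omega)]
      have : 2 * (n + 1) - 1 = 2 * n + 1 := by omega
      rw [this]
      exact join_even v c n
  · intro n
    simp only [Function.comp]
    rw [if_neg (by omega), if_neg (by omega)]
    exact join_odd v c n

instance Dfb.or {P Q : (ℕ → M) → Prop} [hP : Dfb P] [hQ : Dfb Q] : Dfb (fun v => P v ∨ Q v) :=
  Dfb.congr (P := fun v => ¬ (¬ P v ∧ ¬ Q v)) inferInstance (fun v => by tauto)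

instance Dfb.imp {P Q : (ℕ → M) → Prop} [hP : Dfb P] [hQ : Dfb Q] : Dfb (fun v => P v → Q v) :=
  Dfb.congr (P := fun v => ¬ (P v ∧ ¬ Q v)) inferInstance (fun v => by tauto)

instance Dfb.iff {P Q : (ℕ → M) → Prop} [hP : Dfb P] [hQ : Dfb Q] : Dfb (fun v => P v ↔ Q v) :=
  Dfb.congr (P := fun v => (P v → Q v) ∧ (Q v → P v)) inferInstance (fun v => by tauto)

instance Dfb.ex {Q : (ℕ → M) → M → Prop} [hQ : Dfb (fun w : ℕ → M => Q (fun i => w (i + 1)) (w 0))] :
    Dfb (fun v => ∃ x, Q v x) :=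
  Dfb.congr (P := fun v => ¬ (∀ x, ¬ Q v x))
    (@Dfb.not _ _ _ (@Dfb.all _ _ (fun v x => ¬ Q v x) Dfb.not)) (fun v => by simp)


theorem Dfb.mem01 [Nonempty M] : Dfb (fun v : ℕ → M => v 0 ∈ v 1) :=
  ⟨.mem 0 2, fun _ => Classical.choice inferInstance, fun _ => Iff.rfl⟩

theorem Dfb.eq01 [Nonempty M] : Dfb (fun v : ℕ → M => v 0 = v 1) :=
  ⟨.eq 0 2, fun _ => Classical.choice inferInstance, fun _ => Iff.rfl⟩

/-- terms: variables or parameters -/
class VP (t : (ℕ → M) → M) : Prop where
  out : ∃ a : ℕ ⊕ M, ∀ v, t v = Sum.elim v id a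

omit [Membership M M] in
instance VP.var (i : ℕ) : VP (fun v : ℕ → M => v i) := ⟨.inl i, fun _ => rfl⟩

omit [Membership M M] in
instance VP.par (m : M) : VP (fun _ : ℕ → M => m) := ⟨.inr m, fun _ => rfl⟩

def D1 (P : M → Prop) : Prop := Dfb (fun v : ℕ → M => P (v 0))

def D2 (P : M → M → Prop) : Prop := Dfb (fun v : ℕ → M => P (v 0) (v 1))

def D3 (P : M → M → M → Prop) : Prop := Dfb (fun v : ℕ → M => P (v 0) (v 1) (v 2))

theorem D1.app {P : M → Prop} (h : D1 P) (s : (ℕ → M) → M) [hs : VP s] :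
    Dfb (fun v => P (s v)) := by
  obtain ⟨a, ha⟩ := hs.out
  refine (Dfb.subst h (fun _ => a)).congr fun v => ?_
  rw [ha]

theorem D2.app {P : M → M → Prop} (h : D2 P) (s t : (ℕ → M) → M) [hs : VP s] [ht : VP t] :
    Dfb (fun v => P (s v) (t v)) := by
  obtain ⟨a, ha⟩ := hs.out
  obtain ⟨b, hb⟩ := ht.out
  refine (Dfb.subst h (fun n => if n = 0 then a else b)).congr fun v => ?_
  simp only [ha, hb]; rfl

theorem D3.app {P : M → M → M → Prop} (h : D3 P) (s t r : (ℕ → M) → M)
    [hs : VP s] [ht : VP t] [hr : VP r] : Dfb (fun v => P (s v) (t v) (r v)) := by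
  obtain ⟨a, ha⟩ := hs.out
  obtain ⟨b, hb⟩ := ht.out
  obtain ⟨c, hc⟩ := hr.out
  refine (Dfb.subst h (fun n => if n = 0 then a else if n = 1 then b else c)).congr fun v => ?_
  simp only [ha, hb, hc]; rfl

instance Dfb.mem [Nonempty M] {s t : (ℕ → M) → M} [VP s] [VP t] : Dfb (fun v => s v ∈ t v) :=
  D2.app (P := fun a b => a ∈ b) Dfb.mem01 s t

instance Dfb.eq [Nonempty M] {s t : (ℕ → M) → M} [VP s] [VP t] : Dfb (fun v => s v = t v) :=
  D2.app (P := fun a b => a = b) Dfb.eq01 s t

instance Dfb.const [Nonempty M] (p : Prop) : Dfb (fun _ : ℕ → M => p) := by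
  by_cases h : p
  · exact Dfb.congr (P := fun v => v 0 = v 0) inferInstance (fun v => by simp [h])
  · exact Dfb.congr (P := fun v => ¬ v 0 = v 0) inferInstance (fun v => by simp [h])

example [Nonempty M] (a : M) :
    Dfb (fun v : ℕ → M => ∃ x : M, ∀ y : M, y ∈ x ↔ (y = v 3 ∨ y ∈ v 2 ∧ a ∈ y)) :=
  inferInstance

theorem D3_isPair [Nonempty M] : D3 (fun p x y : M => IsPair p x y) := by
  unfold D3 IsPair
  infer_instance

instance Dfb.isPair [Nonempty M] {s t r : (ℕ → M) → M} [VP s] [VP t] [VP r] :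
    Dfb (fun v => IsPair (s v) (t v) (r v)) := D3_isPair.app s t r

end Pool.Agent.MP_5db68c_lc
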