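import Pool.Agent.Lib.MP_5db68c_lc.Topo

/-!
# Metrization inside a model of ZF
-/

universe u

set_option synthInstance.maxSize 100000
set_option synthInstance.maxHeartbeats 400000

namespace Pool.Agent.MP_5db68c_lc

variable {M : Type u} [Membership M M] [hM : IsZF M]

variable {K : RealsIn M} {X t : M} {d : El X → El X → El K.carrier}

/-- The canonical rescaling function. -/
theorem exists_scale (hd : IsQuasiMetric K X d) (hi : IsInduced K X t d) (hc : IsCompactIn X t)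
    (hh : IsHausdorffIn X t) :
    ∃ m : El K.carrier → El K.carrier, DF M m ∧
      (∀ ε, 0 < ε → 0 < m ε ∧ m ε ≤ ε / 2 ∧
        ∀ x y z w, Ent d (m ε) x y → Ent d (m ε) y z → Ent d (m ε) z w → Ent d ε x w) ∧
      ∀ ε ε', 0 < ε → ε ≤ ε' → m ε ≤ m ε' := by
  have hE := @DP.lift₃ _ _ _ _ _ _ _ _ _ (Ent d) (Ent.DP hd)
  let S : El K.carrier → El K.carrier → Prop := fun ε δ => 0 < δ ∧ δ ≤ ε ∧
    ∀ x y z w, Ent d δ x y → Ent d δ y z → Ent d δ z w → Ent d ε x w
  have hS : DP M (fun p : El K.carrier × El K.carrier => S p.1 p.2) := by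
    show DP M (fun p : El K.carrier × El K.carrier => 0 < p.2 ∧ p.2 ≤ p.1 ∧
      ∀ x y z w, Ent d p.2 x y → Ent d p.2 y z → Ent d p.2 z w → Ent d p.1 x w)
    infer_instance
  have hS' := @DP.lift₂ _ _ _ _ _ _ _ S hS
  have hSne : ∀ ε, 0 < ε → ∃ δ, S ε δ := by
    intro ε hε
    obtain ⟨δ, hδ, h1⟩ := claim2 hd hi hc hh ε hε
    obtain ⟨δ', hδ', h2⟩ := claim2 hd hi hc hh δ hδ
    refine ⟨min ε (min δ δ'), lt_min hε (lt_min hδ hδ'), min_le_left _ _, ?_⟩
    intro x y z w a b c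
    refine h1 x z w (h2 x y z ?_ ?_) ?_
    · exact a.mono ((min_le_right _ _).trans (min_le_right _ _))
    · exact b.mono ((min_le_right _ _).trans (min_le_right _ _))
    · exact c.mono ((min_le_right _ _).trans (min_le_left _ _))
  have key : ∀ ε, ∃ s, (0 < ε → IsLUB {δ | S ε δ} s) ∧ (¬ 0 < ε → s = 0) := by
    intro ε
    by_cases hε : 0 < ε
    · obtain ⟨s, hs⟩ := exists_lub (M := M) (K := K) (fun δ => S ε δ) inferInstance (hSne ε hε)
        ⟨ε, fun x hx => hx.2.1⟩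
      exact ⟨s, fun _ => hs, fun h => absurd hε h⟩
    · exact ⟨0, fun h => absurd h hε, fun _ => rfl⟩
  choose s hs hs0 using key
  have hsDF : DF M s := by
    refine DF.of_rel (M := M) (R := fun ε s => (0 < ε → ((∀ δ, S ε δ → δ ≤ s) ∧
      ∀ b, (∀ δ, S ε δ → δ ≤ b) → s ≤ b)) ∧ (¬ 0 < ε → s = 0)) inferInstance ?_ ?_
    · intro ε
      exact ⟨fun h => ⟨fun δ hδ => (hs ε h).1 hδ, fun b hb => (hs ε h).2 hb⟩, hs0 ε⟩
    · intro ε x y hx hy
      by_cases hε : 0 < ε
      · have h1 := hx.1 hε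
        have h2 := hy.1 hε
        exact le_antisymm (h1.2 y h2.1) (h2.2 x h1.1)
      · rw [hx.2 hε, hy.2 hε]
  have hs' := @hsDF.lift₁
  refine ⟨fun ε => s ε / 2, inferInstance, ?_, ?_⟩
  · intro ε hε
    have hlub := hs ε hε
    have hle : s ε ≤ ε := hlub.2 fun δ hδ => hδ.2.1
    obtain ⟨δ₀, hδ₀⟩ := hSne ε hε
    have hpos : 0 < s ε := lt_of_lt_of_le hδ₀.1 (hlub.1 hδ₀)
    refine ⟨by linarith, by linarith, ?_⟩
    have : ∃ δ, S ε δ ∧ s ε / 2 < δ := by
      by_contra hcon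
      push Not at hcon
      have := hlub.2 (fun δ hδ => hcon δ hδ : s ε / 2 ∈ upperBounds {δ | S ε δ})
      linarith
    obtain ⟨δ, hδ, hlt⟩ := this
    intro x y z w a b c
    exact hδ.2.2 x y z w (a.mono hlt.le) (b.mono hlt.le) (c.mono hlt.le)
  · intro ε ε' hε hεε'
    have h1 := hs ε hε
    have h2 := hs ε' (hε.trans_le hεε')
    have : s ε ≤ s ε' := h1.2 fun δ hδ => h2.1
      ⟨hδ.1, hδ.2.1.trans hεε', fun x y z w a b c => (hδ.2.2 x y z w a b c).mono hεε'⟩
    show s ε / 2 ≤ s ε' / 2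
    linarith

/-- The data of the rescaling sequences. -/
structure Scales (K : RealsIn M) (X : M) (d : El X → El X → El K.carrier)
    (a e : N M → El K.carrier) : Prop where
  DFa : DF M a
  DFe : DF M e
  a0 : a N.zero = 1
  a1 : ∀ n, a (N.succ n) = a n / 2
  apos : ∀ n, 0 < a n
  ale : ∀ n, a n ≤ 1
  asmall : ∀ η, 0 < η → ∃ n, a n < η
  epos : ∀ n, 0 < e n
  ele : ∀ n, e n ≤ a n
  emono : ∀ k n, a n < 2 * a k → e n ≤ e k
  trip : ∀ n x y z w, Ent d (e (N.succ n)) x y → Ent d (e (N.succ n)) y z →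
    Ent d (e (N.succ n)) z w → Ent d (e n) x w

theorem exists_scales (hd : IsQuasiMetric K X d) (hi : IsInduced K X t d) (hc : IsCompactIn X t)
    (hh : IsHausdorffIn X t) : ∃ a e : N M → El K.carrier, Scales K X d a e := by
  obtain ⟨m, hm0, hm, hmono⟩ := exists_scale hd hi hc hh
  have hm' := @hm0.lift₁
  obtain ⟨s, hs0, hs1, hs2⟩ := exists_rec (M := M) (Γ := El K.carrier × El K.carrier) (1, 1)
    (fun p => (p.1 / 2, m p.2)) inferInstance
  have hs' := @hs0.lift₁
  have DFa : DF M (fun n => (s n).1) := inferInstance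
  have DFe : DF M (fun n => (s n).2) := inferInstance
  have a0 : (s N.zero).1 = 1 := by rw [hs1]
  have e0 : (s N.zero).2 = 1 := by rw [hs1]
  have a1 : ∀ n, (s (N.succ n)).1 = (s n).1 / 2 := fun n => by rw [hs2]
  have e1 : ∀ n, (s (N.succ n)).2 = m (s n).2 := fun n => by rw [hs2]
  have hpos : ∀ n, 0 < (s n).1 ∧ (s n).1 ≤ 1 ∧ 0 < (s n).2 ∧ (s n).2 ≤ (s n).1 := by
    refine N.induction (M := M) _ inferInstance ?_ ?_
    · rw [hs1]; exact ⟨zero_lt_one, le_rfl, zero_lt_one, le_rfl⟩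
    · intro n ⟨h1, h2, h3, h4⟩
      rw [a1, e1]
      obtain ⟨h5, h6, _⟩ := hm _ h3
      exact ⟨by linarith, by linarith, h5, by linarith⟩
  refine ⟨fun n => (s n).1, fun n => (s n).2, ⟨DFa, DFe, a0, a1, fun n => (hpos n).1,
    fun n => (hpos n).2.1, ?_, fun n => (hpos n).2.2.1, fun n => (hpos n).2.2.2, ?_, ?_⟩⟩
  · intro η hη
    by_contra hcon
    push Not at hcon
    obtain ⟨L, hL⟩ := exists_glb (M := M) (K := K) (fun r => ∃ n, (s n).1 = r) inferInstance
      ⟨_, N.zero, rfl⟩ ⟨η, by rintro x ⟨n, rfl⟩; exact hcon n⟩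
    have hLη : η ≤ L := hL.2 (by rintro x ⟨n, rfl⟩; exact hcon n)
    have : ∃ n, (s n).1 < 2 * L := by
      by_contra h
      push Not at h
      have := hL.2 (show 2 * L ∈ lowerBounds {r | ∃ n, (s n).1 = r} by
        rintro x ⟨n, rfl⟩; exact h n)
      linarith
    obtain ⟨n, hn⟩ := this
    have h1 : L ≤ (s (N.succ n)).1 := hL.1 ⟨N.succ n, rfl⟩
    rw [a1] at h1
    linarith
  · show ∀ k n, (s n).1 < 2 * (s k).1 → (s n).2 ≤ (s k).2
    have h2 : ∀ (k : N M), ∀ n, (s n).1 < (s k).1 + (s k).1 → (s n).2 ≤ (s k).2 := by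
      refine N.induction (M := M) _ inferInstance ?_ ?_
      · intro n _
        rw [e0]
        have := hpos n
        linarith
      · intro k ih n hn
        rw [a1] at hn
        rcases N.cases n with rfl | ⟨n', rfl⟩
        · rw [a0] at hn
          have := hpos k
          linarith
        · rw [a1] at hn
          rw [e1, e1]
          exact hmono _ _ (hpos _).2.2.1 (ih n' (by linarith))
    intro k n h
    exact h2 k n (by linarith)
  · intro n x y z w h1 h2 h3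
    simp only [e1] at h1 h2 h3
    exact (hm _ (hpos n).2.2.1).2.2 x y z w h1 h2 h3

section chain

variable {a e : N M → El K.carrier} (hs : Scales K X d a e)

/-- links of chains -/
def Link (d : El X → El X → El K.carrier) (a e : N M → El K.carrier)
    (c : El K.carrier) (x y : El X) : Prop :=
  (c = 0 ∧ x = y) ∨ c = 1 ∨ ∃ n, c = a (N.succ n) ∧ Ent d (e n) x y

/-- the nested sequence of entourages -/
def VV (d : El X → El X → El K.carrier) (e : N M → El K.carrier) (k : N M) (x y : El X) : Prop :=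
  k = N.zero ∨ ∃ n, k = N.succ n ∧ Ent d (e n) x y

def BB (p : N M × El X × El X × El K.carrier) : Prop :=
  p.1 = N.zero ∧ p.2.1 = p.2.2.1 ∧ 0 ≤ p.2.2.2

def SS (d : El X → El X → El K.carrier) (a e : N M → El K.carrier)
    (p q : N M × El X × El X × El K.carrier) : Prop :=
  q.1 = N.succ p.1 ∧ q.2.1 = p.2.1 ∧ ∃ c, Link d a e c p.2.2.1 q.2.2.1 ∧ p.2.2.2 + c ≤ q.2.2.2

/-- `E n x y r`: there is a chain with `n` links and total cost `≤ r` from `x` to `y` -/
def E (d : El X → El X → El K.carrier) (a e : N M → El K.carrier) (n : N M) (x y : El X)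
    (r : El K.carrier) : Prop :=
  Ind M (BB (X := X) (K := K)) (SS d a e) (n, x, y, r)

include hs

theorem Link.DP (hd : IsQuasiMetric K X d) :
    DP M (fun p : (El K.carrier × El X) × El X => Link d a e p.1.1 p.1.2 p.2) := by
  have hE := @DP.lift₃ _ _ _ _ _ _ _ _ _ (Ent d) (Ent.DP hd)
  have ha := hs.DFa
  have he := hs.DFe
  have ha' := @ha.lift₁
  have he' := @he.lift₁
  unfold Link
  infer_instance

theorem SS.DP (hd : IsQuasiMetric K X d) :
    DP M (fun p : (N M × El X × El X × El K.carrier) × (N M × El X × El X × El K.carrier) =>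
      SS d a e p.1 p.2) := by
  have hL := @DP.lift₃ _ _ _ _ _ _ _ _ _ (Link d a e) (Link.DP hs hd)
  unfold SS
  infer_instance

omit hs in
theorem BB.DP : DP M (BB (X := X) (K := K)) := by
  show MP_5db68c_lc.DP M (fun p : N M × El X × El X × El K.carrier => 
    p.1 = N.zero ∧ p.2.1 = p.2.2.1 ∧ 0 ≤ p.2.2.2)
  infer_instance

theorem E.DP (hd : IsQuasiMetric K X d) :
    ∀ {Γ : Type u} [Coded M Γ] {n : Γ → N M} {f g : Γ → El X} {r : Γ → El K.carrier} [DF M n]
      [DF M f] [DF M g] [DF M r], DP M (fun γ => E d a e (n γ) (f γ) (g γ) (r γ)) := by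
  intro Γ _ n f g r _ _ _ _
  exact DP.comp (P := Ind M (BB (X := X) (K := K)) (SS d a e))
    (f := fun γ => (n γ, f γ, g γ, r γ)) (Ind.DP BB.DP (SS.DP hs hd)) inferInstance

theorem E.zero_iff (hd : IsQuasiMetric K X d) {x y : El X} {r : El K.carrier} :
    E d a e N.zero x y r ↔ x = y ∧ 0 ≤ r := by
  constructor
  · intro h
    rcases Ind.inv BB.DP (SS.DP hs hd) h with h | ⟨p, _, h, _⟩
    · exact h.2
    · exact (N.succ_ne_zero _ h.symm).elim
  · intro h
    exact Ind.base ⟨rfl, h⟩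

theorem E.succ_iff (hd : IsQuasiMetric K X d) {n : N M} {x y : El X} {r : El K.carrier} :
    E d a e (N.succ n) x y r ↔ ∃ z s c, E d a e n x z s ∧ Link d a e c z y ∧ s + c ≤ r := by
  constructor
  · intro h
    rcases Ind.inv BB.DP (SS.DP hs hd) h with h | ⟨⟨n', x', z, s⟩, h1, h2, h3, c, h4, h5⟩
    · exact (N.succ_ne_zero _ h.1).elim
    · have hn : n' = n := (N.succ_inj h2).symm
      subst hn
      simp only at h3 h4 h5
      subst h3
      exact ⟨z, s, c, h1, h4, h5⟩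
  · rintro ⟨z, s, c, h1, h2, h3⟩
    exact Ind.step h1 ⟨rfl, rfl, c, h2, h3⟩

theorem Link.nonneg {c : El K.carrier} {x y : El X} (h : Link d a e c x y) : 0 ≤ c := by
  rcases h with ⟨rfl, _⟩ | rfl | ⟨n, rfl, _⟩
  · exact le_rfl
  · exact zero_le_one
  · exact (hs.apos _).le

omit hs in
theorem Link.symm {c : El K.carrier} {x y : El X} (h : Link d a e c x y) : Link d a e c y x := by
  rcases h with ⟨rfl, rfl⟩ | rfl | ⟨n, rfl, h⟩
  · exact Or.inl ⟨rfl, rfl⟩
  · exact Or.inr (Or.inl rfl)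
  · exact Or.inr (Or.inr ⟨n, rfl, h.symm⟩)

theorem E.mono (hd : IsQuasiMetric K X d) {n : N M} {x y : El X} {r r' : El K.carrier}
    (h : E d a e n x y r) (hr : r ≤ r') : E d a e n x y r' := by
  rcases N.cases n with rfl | ⟨n, rfl⟩
  · rw [E.zero_iff hs hd] at h ⊢
    exact ⟨h.1, h.2.trans hr⟩
  · rw [E.succ_iff hs hd] at h ⊢
    obtain ⟨z, s, c, h1, h2, h3⟩ := h
    exact ⟨z, s, c, h1, h2, h3.trans hr⟩

theorem E.up (hd : IsQuasiMetric K X d) {n : N M} {x y : El X} {r : El K.carrier}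
    (h : E d a e n x y r) : E d a e (N.succ n) x y r := by
  rw [E.succ_iff hs hd]
  exact ⟨y, r, 0, h, Or.inl ⟨rfl, rfl⟩, by simp⟩

theorem E.nonneg (hd : IsQuasiMetric K X d) :
    ∀ (n : N M) (x y : El X) (r : El K.carrier), E d a e n x y r → 0 ≤ r := by
  have hE := @E.DP _ _ _ _ _ _ _ _ hs hd
  refine N.induction (M := M) _ inferInstance ?_ ?_
  · intro x y r h
    rw [E.zero_iff hs hd] at h
    exact h.2
  · intro n ih x y r h
    rw [E.succ_iff hs hd] at h
    obtain ⟨z, s, c, h1, h2, h3⟩ := h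
    have := ih _ _ _ h1
    have := h2.nonneg hs
    linarith

theorem E.refl (hd : IsQuasiMetric K X d) (n : N M) (x : El X) (r : El K.carrier) (hr : 0 ≤ r) :
    E d a e n x x r := by
  have hE := @E.DP _ _ _ _ _ _ _ _ hs hd
  have : ∀ n : N M, E d a e n x x r := by
    refine N.induction (M := M) _ inferInstance ?_ ?_
    · rw [E.zero_iff hs hd]; exact ⟨rfl, hr⟩
    · intro n ih
      exact E.up hs hd ih
  exact this n

theorem E.split (hd : IsQuasiMetric K X d) :
    ∀ (n : N M) (x y : El X) (r q : El K.carrier), E d a e (N.succ n) x y r → 0 ≤ q → q ≤ r →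
      ∃ u v c s', E d a e n x u q ∧ Link d a e c u v ∧ c ≤ r ∧ s' + q = r ∧ E d a e n v y s' := by
  have hE := @E.DP _ _ _ _ _ _ _ _ hs hd
  have hL := @DP.lift₃ _ _ _ _ _ _ _ _ _ (Link d a e) (Link.DP hs hd)
  refine N.induction (M := M) _ inferInstance ?_ ?_
  · intro x y r q h hq0 hq
    rw [E.succ_iff hs hd] at h
    obtain ⟨z, s, c, h1, h2, h3⟩ := h
    rw [E.zero_iff hs hd] at h1
    obtain ⟨rfl, h1⟩ := h1
    refine ⟨x, y, c, r - q, (E.zero_iff hs hd).2 ⟨rfl, hq0⟩, h2, by linarith, by ring,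
      (E.zero_iff hs hd).2 ⟨rfl, by linarith⟩⟩
  · intro n ih x y r q h hq0 hq
    rw [E.succ_iff hs hd] at h
    obtain ⟨z, s, c, h1, h2, h3⟩ := h
    have hs0 := E.nonneg hs hd _ _ _ _ h1
    have hc0 := h2.nonneg hs
    by_cases hsq : s ≤ q
    · exact ⟨z, y, c, r - q, E.mono hs hd h1 hsq, h2, by linarith, by ring,
        E.refl hs hd _ _ _ (by linarith)⟩
    · push Not at hsq
      obtain ⟨u, v, c', s', h4, h5, h6, h7, h8⟩ := ih x z s q h1 hq0 hsq.le
      refine ⟨u, v, c', r - q, E.up hs hd h4, h5, by linarith, by ring, ?_⟩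
      rw [E.succ_iff hs hd]
      exact ⟨z, s', c, h8, h2, by linarith⟩

theorem Ent.refl' (hd : IsQuasiMetric K X d) (k : N M) (x : El X) : Ent d (e k) x x :=
  ⟨x, by rw [hd.self]; exact hs.epos k, by rw [hd.self]; exact hs.epos k⟩

theorem VV.refl (hd : IsQuasiMetric K X d) (k : N M) (x : El X) : VV d e k x x := by
  rcases N.cases k with rfl | ⟨n, rfl⟩
  · exact Or.inl rfl
  · exact Or.inr ⟨n, rfl, Ent.refl' hs hd n x⟩

omit hs in
theorem VV.succ_iff {k : N M} {x y : El X} : VV d e (N.succ k) x y ↔ Ent d (e k) x y := by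
  constructor
  · rintro (h | ⟨n, h, h'⟩)
    · exact (N.succ_ne_zero _ h).elim
    · rw [N.succ_inj h]; exact h'
  · exact fun h => Or.inr ⟨k, rfl, h⟩

theorem VV.trip {k : N M} {x y z w : El X} (h1 : VV d e (N.succ k) x y)
    (h2 : VV d e (N.succ k) y z) (h3 : VV d e (N.succ k) z w) : VV d e k x w := by
  rw [VV.succ_iff] at h1 h2 h3
  rcases N.cases k with rfl | ⟨n, rfl⟩
  · exact Or.inl rfl
  · rw [VV.succ_iff]
    exact hs.trip n x y z w h1 h2 h3

theorem Link.VV (hd : IsQuasiMetric K X d) {c : El K.carrier} {k : N M} {x y : El X}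
    (h : Link d a e c x y) (hc : c < a k) : VV d e (N.succ k) x y := by
  rw [VV.succ_iff]
  rcases h with ⟨_, rfl⟩ | rfl | ⟨n, rfl, h⟩
  · exact Ent.refl' hs hd k x
  · exact absurd (hs.ale k) (not_le.2 hc)
  · refine h.mono (hs.emono k n ?_)
    rw [hs.a1] at hc
    linarith

theorem VV.DP (hd : IsQuasiMetric K X d) :
    DP M (fun p : (N M × El X) × El X => VV d e p.1.1 p.1.2 p.2) := by
  have hE := @DP.lift₃ _ _ _ _ _ _ _ _ _ (Ent d) (Ent.DP hd)
  have he := hs.DFe
  have he' := @he.lift₁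
  unfold MP_5db68c_lc.VV
  infer_instance

/-- The chain lemma. -/
theorem chain (hd : IsQuasiMetric K X d) :
    ∀ (n : N M) (x y : El X) (r : El K.carrier) (k : N M), E d a e n x y r → r < a k →
      VV d e k x y := by
  have hE := @E.DP _ _ _ _ _ _ _ _ hs hd
  have hV := @DP.lift₃ _ _ _ _ _ _ _ _ _ (MP_5db68c_lc.VV d e) (VV.DP hs hd)
  have ha := hs.DFa
  have ha' := @ha.lift₁
  refine N.induction (M := M) _ inferInstance ?_ ?_
  · intro x y r k h _
    rw [E.zero_iff hs hd] at h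
    rw [h.1]
    exact VV.refl hs hd k y
  · intro n ih x y r k h hr
    have hr0 := E.nonneg hs hd _ _ _ _ h
    obtain ⟨u, v, c, s', h1, h2, h3, h4, h5⟩ := E.split hs hd n x y r (r / 2) h (by linarith)
      (by linarith)
    have hk := hs.a1 k
    refine VV.trip hs (ih x u (r / 2) (N.succ k) h1 (by rw [hk]; linarith))
      (h2.VV hs hd (lt_of_le_of_lt h3 hr)) (ih v y s' (N.succ k) h5 (by rw [hk]; linarith))

theorem E.trans (hd : IsQuasiMetric K X d) {x y : El X} {r : El K.carrier} {n : N M}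
    (h : E d a e n x y r) :
    ∀ (m : N M) (z : El X) (s : El K.carrier), E d a e m y z s → ∃ k, E d a e k x z (r + s) := by
  have hE := @E.DP _ _ _ _ _ _ _ _ hs hd
  refine N.induction (M := M) _ inferInstance ?_ ?_
  · intro z s h'
    rw [E.zero_iff hs hd] at h'
    obtain ⟨rfl, h'⟩ := h'
    exact ⟨n, E.mono hs hd h (by linarith)⟩
  · intro m ih z s h'
    rw [E.succ_iff hs hd] at h'
    obtain ⟨w, q, c, h1, h2, h3⟩ := h'
    obtain ⟨k, hk⟩ := ih w q h1
    exact ⟨N.succ k, (E.succ_iff hs hd).2 ⟨w, r + q, c, hk, h2, by linarith⟩⟩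

theorem E.symm (hd : IsQuasiMetric K X d) :
    ∀ (n : N M) (x y : El X) (r : El K.carrier), E d a e n x y r → ∃ k, E d a e k y x r := by
  have hE := @E.DP _ _ _ _ _ _ _ _ hs hd
  refine N.induction (M := M) _ inferInstance ?_ ?_
  · intro x y r h
    rw [E.zero_iff hs hd] at h
    exact ⟨N.zero, (E.zero_iff hs hd).2 ⟨h.1.symm, h.2⟩⟩
  · intro n ih x y r h
    rw [E.succ_iff hs hd] at h
    obtain ⟨w, q, c, h1, h2, h3⟩ := h
    obtain ⟨k, hk⟩ := ih x w q h1
    have h4 : E d a e (N.succ N.zero) y w c :=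
      (E.succ_iff hs hd).2 ⟨y, 0, c, (E.zero_iff hs hd).2 ⟨rfl, le_rfl⟩, h2.symm, by linarith⟩
    obtain ⟨k', hk'⟩ := E.trans hs hd h4 k x q hk
    exact ⟨k', E.mono hs hd hk' (by linarith)⟩

theorem E.one (hd : IsQuasiMetric K X d) {x y : El X} {c : El K.carrier}
    (h : Link d a e c x y) : E d a e (N.succ N.zero) x y c :=
  (E.succ_iff hs hd).2 ⟨x, 0, c, (E.zero_iff hs hd).2 ⟨rfl, le_rfl⟩, h, by linarith⟩

end chain

/-- **Main theorem**: inside a model of ZF, compact Hausdorff quasi-metrizable spaces are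
metrizable. -/
theorem metrizable_of_quasi (hc : IsCompactIn X t) (hh : IsHausdorffIn X t)
    (hq : QuasiMetrizable X t) : Metrizable X t := by
  obtain ⟨K, d, hd, hi⟩ := hq
  obtain ⟨a, e, hs⟩ := exists_scales hd hi hc hh
  have hE := @E.DP _ _ _ _ _ _ _ _ hs hd
  have key : ∀ x y : El X, ∃ r, IsGLB {r | ∃ n, E d a e n x y r} r := by
    intro x y
    refine exists_glb (M := M) (K := K) (fun r => ∃ n, E d a e n x y r) inferInstance ?_ ?_
    · exact ⟨1, _, E.one hs hd (Or.inr (Or.inl rfl))⟩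
    · exact ⟨0, fun r ⟨n, h⟩ => E.nonneg hs hd _ _ _ _ h⟩
  choose ρ hρ using key
  have hρle : ∀ {x y : El X} {r : El K.carrier} {n : N M}, E d a e n x y r → ρ x y ≤ r :=
    fun {x y r n} h => (hρ x y).1 ⟨n, h⟩
  have hρge : ∀ {x y : El X} {r : El K.carrier}, (∀ n s, E d a e n x y s → r ≤ s) → r ≤ ρ x y :=
    fun {x y r} h => (hρ x y).2 fun s ⟨n, hn⟩ => h n s hn
  have hρlt : ∀ {x y : El X} {r : El K.carrier}, ρ x y < r → ∃ n s, E d a e n x y s ∧ s < r := by
    intro x y r h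
    by_contra hcon
    push Not at hcon
    exact absurd (hρge hcon) (not_le.2 h)
  have hρDF : DF M (fun p : El X × El X => ρ p.1 p.2) := by
    refine DF.of_rel (M := M) (R := fun p r => (∀ n s, E d a e n p.1 p.2 s → r ≤ s) ∧
      ∀ b, (∀ n s, E d a e n p.1 p.2 s → b ≤ s) → b ≤ r) inferInstance ?_ ?_
    · intro p
      exact ⟨fun n s h => hρle h, fun b hb => hρge hb⟩
    · intro p x y hx hy
      exact le_antisymm (hy.2 x hx.1) (hx.2 y hy.1)
  have hself : ∀ x, ρ x x = 0 := by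
    intro x
    refine le_antisymm (hρle (E.refl hs hd N.zero x 0 le_rfl)) ?_
    exact hρge fun n s h => E.nonneg hs hd _ _ _ _ h
  have hnonneg : ∀ x y, 0 ≤ ρ x y := fun x y => hρge fun n s h => E.nonneg hs hd _ _ _ _ h
  have hsymm' : ∀ x y, ρ x y ≤ ρ y x := by
    intro x y
    refine hρge fun n s h => ?_
    obtain ⟨k, hk⟩ := E.symm hs hd n y x s h
    exact hρle hk
  have htri : ∀ x y z, ρ x y ≤ ρ x z + ρ z y := by
    intro x y z
    by_contra hcon
    push Not at hcon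
    have h1 : ρ x z < ρ x z + (ρ x y - (ρ x z + ρ z y)) / 2 := by linarith
    have h2 : ρ z y < ρ z y + (ρ x y - (ρ x z + ρ z y)) / 2 := by linarith
    obtain ⟨n, s, h3, h4⟩ := hρlt h1
    obtain ⟨m, q, h5, h6⟩ := hρlt h2
    obtain ⟨k, hk⟩ := E.trans hs hd h3 m y q h5
    have := hρle hk
    linarith
  have hV : ∀ {x y : El X} {k : N M}, ρ x y < a k → VV d e k x y := by
    intro x y k h
    obtain ⟨n, s, h1, h2⟩ := hρlt h
    exact chain hs hd n x y s k h1 h2
  have hzero : ∀ x y, ρ x y = 0 → x = y := by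
    intro x y h
    refine claim1 hd hi hc hh x y fun ε hε => ?_
    obtain ⟨n, hn⟩ := hs.asmall ε hε
    have h1 : VV d e (N.succ n) x y := hV (by rw [h]; exact hs.apos _)
    rw [VV.succ_iff] at h1
    exact ⟨x, y, by rw [hd.self]; exact hε, by rw [hd.self]; exact hε,
      h1.mono ((hs.ele n).trans hn.le)⟩
  refine ⟨K, ρ, ⟨⟨FunIn₂.of_DF hρDF, hnonneg, hself, htri, hzero⟩,
    fun x y => le_antisymm (hsymm' x y) (hsymm' y x)⟩, fun V => ?_⟩
  constructor
  · intro hVt
    refine ⟨((hi V).1 hVt).1, fun x hx => ?_⟩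
    obtain ⟨ε, hε, h⟩ := claim3 hd hi hc hh V hVt x hx
    obtain ⟨n, hn⟩ := hs.asmall ε hε
    refine ⟨a (N.succ n), hs.apos _, fun y hy => h y ?_⟩
    have h1 : VV d e (N.succ n) x y := hV hy
    rw [VV.succ_iff] at h1
    exact h1.mono ((hs.ele n).trans hn.le)
  · rintro ⟨h1, h2⟩
    rw [hi V]
    refine ⟨h1, fun x hx => ?_⟩
    obtain ⟨ε, hε, h⟩ := h2 x hx
    obtain ⟨n, hn⟩ := hs.asmall ε hε
    refine ⟨e n, hs.epos n, fun y hy => h y ?_⟩
    have h3 : Link d a e (a (N.succ n)) x y :=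
      Or.inr (Or.inr ⟨n, rfl, x, by rw [hd.self]; exact hs.epos n, hy⟩)
    have h4 := hρle (E.one hs hd h3)
    have h5 := hs.a1 n
    have h6 := hs.apos n
    linarith

/-- **Q1** holds in every model of ZF. -/
theorem q1 (h : CPMle M) : CPQle M := by
  intro J X t P T hJ hP hsp
  obtain ⟨K, d, hd, hi⟩ := h J X t P T hJ hP
    (fun j => ⟨(hsp j).1, metrizable_of_quasi (hsp j).1 (hsp j).2.1 (hsp j).2.2⟩)
  exact ⟨K, d, hd.toIsQuasiMetric, hi⟩

end Pool.Agent.MP_5db68c_lc
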