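import Pool.Agent.Lib.MP_5db68c_lc.Coded

/-!
# Set-coded types, natural numbers, inductive definitions and recursion inside a model of ZF
-/

universe u

set_option synthInstance.maxSize 100000
set_option synthInstance.maxHeartbeats 400000

namespace Pool.Agent.MP_5db68c_lc

variable {M : Type u} [Membership M M] [hM : IsZF M]

/-! ## lifting definability to composites (used as local instances) -/

section lift
variable {A B C : Type u} [Coded M A] [Coded M B] [Coded M C]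

omit hM in
theorem DP.lift₁ {R : A → Prop} (hR : DP M R) :
    ∀ {Γ : Type u} [Coded M Γ] {f : Γ → A} [DF M f], DP M (fun γ => R (f γ)) :=
  fun {_} _ {_} hf => DP.comp hR hf

theorem DP.lift₂ {R : A → B → Prop} (hR : DP M (fun p : A × B => R p.1 p.2)) :
    ∀ {Γ : Type u} [Coded M Γ] {f : Γ → A} {g : Γ → B} [DF M f] [DF M g],
      DP M (fun γ => R (f γ) (g γ)) :=
  fun {_} _ {_} {_} hf hg => DP.app₂ hR hf hg

theorem DP.lift₃ {R : A → B → C → Prop} (hR : DP M (fun p : (A × B) × C => R p.1.1 p.1.2 p.2)) :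
    ∀ {Γ : Type u} [Coded M Γ] {f : Γ → A} {g : Γ → B} {h : Γ → C} [DF M f] [DF M g] [DF M h],
      DP M (fun γ => R (f γ) (g γ) (h γ)) :=
  fun {_} _ {f} {g} {h} _ _ _ => DP.comp (P := fun p : (A × B) × C => R p.1.1 p.1.2 p.2)
    (f := fun γ => ((f γ, g γ), h γ)) hR inferInstance

omit hM in
theorem DF.lift₁ {h : A → B} (hh : DF M h) :
    ∀ {Γ : Type u} [Coded M Γ] {f : Γ → A} [DF M f], DF M (fun γ => h (f γ)) :=
  fun {_} _ {_} hf => DF.comp hh hf

theorem DF.lift₂ {h : A → B → C} (hh : DF M (fun p : A × B => h p.1 p.2)) :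
    ∀ {Γ : Type u} [Coded M Γ] {f : Γ → A} {g : Γ → B} [DF M f] [DF M g],
      DF M (fun γ => h (f γ) (g γ)) :=
  fun {_} _ {_} {_} hf hg => DF.app₂ hh hf hg

end lift

/-! ## Set-coded types -/

variable (M) in
/-- the codes of the elements of `Γ` form a set of `M` -/
class SetCoded (Γ : Type u) [Coded M Γ] : Prop where
  set : ∃ A : M, ∀ m : M, m ∈ A ↔ ∃ γ : Γ, Coded.code γ = m

instance SetCoded.el (a : M) : SetCoded M (El a) :=
  ⟨a, fun m => ⟨fun h => ⟨⟨m, h⟩, rfl⟩, by rintro ⟨x, rfl⟩; exact x.2⟩⟩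

theorem exists_prod (A B : M) : ∃ P : M, ∀ p : M, p ∈ P ↔ ∃ a : M, a ∈ A ∧ ∃ b : M, b ∈ B ∧ p = pr a b := by
  obtain ⟨AB, hAB⟩ := hM.zf.pairing A B
  obtain ⟨U, hU⟩ := hM.zf.union AB
  obtain ⟨Q, hQ⟩ := hM.zf.powerset U
  obtain ⟨QQ, hQQ⟩ := hM.zf.powerset Q
  have hD : D1 (fun p : M => ∃ a : M, a ∈ A ∧ ∃ b : M, b ∈ B ∧ IsPair p a b) := by
    unfold D1; infer_instance
  obtain ⟨P, hP⟩ := exists_sep hD QQ
  refine ⟨P, fun p => ?_⟩
  rw [hP]
  simp only [isPair_iff]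
  constructor
  · exact fun h => h.2
  · rintro ⟨a, ha, b, hb, rfl⟩
    refine ⟨?_, a, ha, b, hb, rfl⟩
    rw [hQQ]
    intro z hz
    rw [hQ]
    intro y hy
    rw [hU]
    rcases (isPair_pr a b z).1 hz with h | h
    · rw [h] at hy
      subst hy
      exact ⟨A, (hAB A).2 (Or.inl rfl), ha⟩
    · rcases (h y).1 hy with rfl | rfl
      · exact ⟨A, (hAB A).2 (Or.inl rfl), ha⟩
      · exact ⟨B, (hAB B).2 (Or.inr rfl), hb⟩

instance SetCoded.prod {Γ Δ : Type u} [Coded M Γ] [Coded M Δ] [h1 : SetCoded M Γ] [h2 : SetCoded M Δ] :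
    SetCoded M (Γ × Δ) := by
  obtain ⟨A, hA⟩ := h1.set
  obtain ⟨B, hB⟩ := h2.set
  obtain ⟨P, hP⟩ := exists_prod A B
  refine ⟨P, fun m => ?_⟩
  rw [hP]
  constructor
  · rintro ⟨a, ha, b, hb, rfl⟩
    obtain ⟨γ, rfl⟩ := (hA a).1 ha
    obtain ⟨δ, rfl⟩ := (hB b).1 hb
    exact ⟨(γ, δ), rfl⟩
  · rintro ⟨⟨γ, δ⟩, rfl⟩
    exact ⟨_, (hA _).2 ⟨γ, rfl⟩, _, (hB _).2 ⟨δ, rfl⟩, rfl⟩

theorem exists_subset {Γ : Type u} [Coded M Γ] [h : SetCoded M Γ] (P : Γ → Prop) (hP : DP M P) :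
    ∃ b : M, ∀ m : M, m ∈ b ↔ ∃ γ : Γ, Coded.code γ = m ∧ P γ := by
  obtain ⟨A, hA⟩ := h.set
  obtain ⟨P', h1, h2⟩ := hP.out
  obtain ⟨b, hb⟩ := exists_sep h1 A
  refine ⟨b, fun m => ?_⟩
  rw [hb, hA]
  constructor
  · rintro ⟨⟨γ, rfl⟩, h⟩
    exact ⟨γ, rfl, (h2 γ).2 h⟩
  · rintro ⟨γ, rfl, h⟩
    exact ⟨⟨γ, rfl⟩, (h2 γ).1 h⟩

theorem exists_subset' {Γ : Type u} [Coded M Γ] [h : SetCoded M Γ] (P : Γ → Prop) (hP : DP M P) :
    ∃ b : M, ∀ γ : Γ, (Coded.code γ : M) ∈ b ↔ P γ := by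
  obtain ⟨b, hb⟩ := exists_subset (M := M) P hP
  refine ⟨b, fun γ => ?_⟩
  rw [hb]
  constructor
  · rintro ⟨γ', h1, h2⟩
    rw [Coded.inj h1] at h2
    exact h2
  · exact fun h => ⟨γ, rfl, h⟩

theorem exists_el_subset {a : M} (P : El a → Prop) (hP : DP M P) :
    ∃ b : M, ∀ x : M, x ∈ b ↔ ∃ h : x ∈ a, P ⟨x, h⟩ := by
  obtain ⟨b, hb⟩ := exists_subset (M := M) P hP
  refine ⟨b, fun x => ?_⟩
  rw [hb]
  constructor
  · rintro ⟨γ, rfl, h⟩
    exact ⟨γ.2, h⟩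
  · rintro ⟨h, h'⟩
    exact ⟨⟨x, h⟩, rfl, h'⟩

/-! ## Functions in `M` versus definable functions -/

theorem FunIn.of_DF {a b : M} {f : El a → El b} (hf : DF M f) : FunIn (fun x => (f x).1) := by
  obtain ⟨g, hg⟩ := exists_subset (M := M) (fun p : El a × El b => f p.1 = p.2)
    (DF.iff_graph.1 hf)
  refine ⟨g, fun p => ?_⟩
  rw [hg]
  simp only [isPair_iff]
  constructor
  · rintro ⟨⟨x, y⟩, rfl, h⟩
    simp only at h
    subst h
    exact ⟨x, rfl⟩
  · rintro ⟨x, rfl⟩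
    exact ⟨(x, f x), rfl, rfl⟩

theorem FunIn.DF {a b : M} {f : El a → El b} (hf : FunIn (fun x => (f x).1)) : DF M f := by
  obtain ⟨g, hg⟩ := hf
  rw [DF.iff_graph]
  refine DP.congr (P := fun p : El a × El b => (Coded.code p : M) ∈ g) inferInstance ?_
  rintro ⟨x, y⟩
  rw [hg]
  simp only [isPair_iff]
  constructor
  · intro h; exact ⟨x, by rw [h]; rfl⟩
  · rintro ⟨x', h⟩
    have := pr_inj.1 h
    have h1 : x = x' := Subtype.ext this.1
    subst h1
    exact (Subtype.ext this.2).symm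

theorem FunIn₂.of_DF {a b c : M} {f : El a → El b → El c}
    (hf : Pool.Agent.MP_5db68c_lc.DF M (fun p : El a × El b => f p.1 p.2)) :
    FunIn₂ (fun x y => (f x y).1) := by
  obtain ⟨g, hg⟩ := exists_subset (M := M) (fun p : (El a × El b) × El c => f p.1.1 p.1.2 = p.2)
    (DF.iff_graph.1 hf)
  refine ⟨g, fun p => ?_⟩
  rw [hg]
  simp only [isTriple_iff]
  constructor
  · rintro ⟨⟨⟨x, y⟩, z⟩, rfl, h⟩
    simp only at h
    subst h
    exact ⟨x, y, rfl⟩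
  · rintro ⟨x, y, rfl⟩
    exact ⟨((x, y), f x y), rfl, rfl⟩

theorem FunIn₂.DF {a b c : M} {f : El a → El b → El c} (hf : FunIn₂ (fun x y => (f x y).1)) :
    DF M (fun p : El a × El b => f p.1 p.2) := by
  obtain ⟨g, hg⟩ := hf
  rw [DF.iff_graph]
  refine DP.congr (P := fun p : (El a × El b) × El c => (Coded.code p : M) ∈ g) inferInstance ?_
  rintro ⟨⟨x, y⟩, z⟩
  rw [hg]
  simp only [isTriple_iff]
  constructor
  · intro h; exact ⟨x, y, by rw [h]; rfl⟩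
  · rintro ⟨x', y', h⟩
    have := pr_inj.1 h
    have h' := pr_inj.1 this.1
    have h1 : x = x' := Subtype.ext h'.1
    have h2 : y = y' := Subtype.ext h'.2
    subst h1 h2
    exact (Subtype.ext this.2).symm

theorem RelIn.DP {a b : M} {r : El a → El b → Prop} (hr : RelIn r) :
    DP M (fun p : El a × El b => r p.1 p.2) := by
  obtain ⟨g, hg⟩ := hr
  refine DP.congr (P := fun p : El a × El b => (Coded.code p : M) ∈ g) inferInstance ?_
  rintro ⟨x, y⟩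
  rw [hg]
  simp only [isPair_iff]
  constructor
  · intro h; exact ⟨x, y, rfl, h⟩
  · rintro ⟨x', y', h, h'⟩
    have := pr_inj.1 h
    have h1 : x = x' := Subtype.ext this.1
    have h2 : y = y' := Subtype.ext this.2
    subst h1 h2
    exact h'

/-! ## Natural numbers -/

theorem exists_omega : ∃ w : M, IsOmega w := by
  obtain ⟨w, hw⟩ := hM.zf.infinity
  have hD : D1 (fun n : M => ∀ w' : M, IsInductive w' → n ∈ w') := by
    unfold D1 IsInductive; infer_instance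
  obtain ⟨om, hom⟩ := exists_sep hD w
  refine ⟨om, ⟨⟨?_, ?_⟩, fun w' h' n hn => ((hom n).1 hn).2 w' h'⟩⟩
  · obtain ⟨e, he, hx⟩ := hw.1
    refine ⟨e, (hom e).2 ⟨he, fun w' h' => ?_⟩, hx⟩
    obtain ⟨e', he', hx'⟩ := h'.1
    have : e = e' := ext' fun x => ⟨fun h => (hx x h).elim, fun h => (hx' x h).elim⟩
    rwa [this]
  · intro n hn
    obtain ⟨s, hs, hx⟩ := hw.2 n ((hom n).1 hn).1
    refine ⟨s, (hom s).2 ⟨hs, fun w' h' => ?_⟩, hx⟩
    obtain ⟨s', hs', hx'⟩ := h'.2 n (((hom n).1 hn).2 w' h')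
    have : s = s' := ext' fun x => by rw [hx, hx']
    rwa [this]

theorem IsOmega.unique {w w' : M} (h : IsOmega w) (h' : IsOmega w') : w = w' :=
  ext' fun n => ⟨fun hn => h.2 w' h'.1 n hn, fun hn => h'.2 w h.1 n hn⟩

variable (M) in
noncomputable def om : M := exists_omega.choose

theorem isOmega_om : IsOmega (om M) := exists_omega.choose_spec

variable (M) in
abbrev N : Type u := El (om M)

namespace N

noncomputable def zero : N M := ⟨_, (isOmega_om (M := M)).1.1.choose_spec.1⟩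

theorem not_mem_zero (x : M) : x ∉ (zero : N M).1 := (isOmega_om (M := M)).1.1.choose_spec.2 x

noncomputable def succ (n : N M) : N M := ⟨_, ((isOmega_om (M := M)).1.2 n.1 n.2).choose_spec.1⟩

theorem mem_succ (n : N M) (x : M) : x ∈ (succ n).1 ↔ x ∈ n.1 ∨ x = n.1 :=
  ((isOmega_om (M := M)).1.2 n.1 n.2).choose_spec.2 x

instance DF_succ : DF M (succ : N M → N M) := by
  refine DF.of_rel (M := M) (R := fun n m => ∀ x : M, x ∈ m.1 ↔ x ∈ n.1 ∨ x = n.1)
    inferInstance (fun n => mem_succ n) ?_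
  intro n x y hx hy
  exact Subtype.ext (ext' fun z => by rw [hx, hy])

instance DF_succ' {Γ : Type u} [Coded M Γ] {f : Γ → N M} [hf : DF M f] :
    DF M (fun γ => succ (f γ)) := DF_succ.comp hf

theorem succ_ne_zero (n : N M) : succ n ≠ zero := by
  intro h
  apply not_mem_zero n.1
  rw [← h, mem_succ]
  exact Or.inr rfl

theorem no_cycle (a b : M) (h1 : a ∈ b) (h2 : b ∈ a) : False := by
  obtain ⟨c, hc⟩ := hM.zf.pairing a b
  obtain ⟨x, hx, hy⟩ := hM.zf.foundation c ⟨a, (hc a).2 (Or.inl rfl)⟩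
  rcases (hc x).1 hx with rfl | rfl
  · exact hy b h2 ((hc b).2 (Or.inr rfl))
  · exact hy a h1 ((hc a).2 (Or.inl rfl))

theorem succ_inj {n m : N M} (h : succ n = succ m) : n = m := by
  by_contra hne
  have h1 : n.1 ∈ (succ m).1 := by rw [← h, mem_succ]; exact Or.inr rfl
  have h2 : m.1 ∈ (succ n).1 := by rw [h, mem_succ]; exact Or.inr rfl
  rw [mem_succ] at h1 h2
  rcases h1 with h1 | h1
  · rcases h2 with h2 | h2
    · exact no_cycle _ _ h1 h2
    · exact hne (Subtype.ext h2.symm)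
  · exact hne (Subtype.ext h1)

theorem induction (P : N M → Prop) (hP : DP M P) (h0 : P zero) (hs : ∀ n, P n → P (succ n)) :
    ∀ n, P n := by
  obtain ⟨b, hb⟩ := exists_el_subset P hP
  have hI : IsInductive b := by
    refine ⟨⟨zero.1, (hb _).2 ⟨zero.2, h0⟩, not_mem_zero⟩, fun n hn => ?_⟩
    obtain ⟨h1, h2⟩ := (hb n).1 hn
    exact ⟨(succ ⟨n, h1⟩).1, (hb _).2 ⟨(succ ⟨n, h1⟩).2, hs _ h2⟩, mem_succ ⟨n, h1⟩⟩
  intro n
  obtain ⟨_, h⟩ := (hb n.1).1 (isOmega_om.2 b hI n.1 n.2)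
  exact h

theorem cases (n : N M) : n = zero ∨ ∃ m, n = succ m := by
  refine induction (M := M) (fun n => n = zero ∨ ∃ m, n = succ m) inferInstance (Or.inl rfl)
    (fun n _ => Or.inr ⟨n, rfl⟩) n

end N

/-! ## Inductive definitions -/

section Ind

variable {Γ : Type u} [Coded M Γ] [SetCoded M Γ]

variable (M) in
/-- The least predicate containing `B` and closed under `S`. -/
def Ind (B : Γ → Prop) (S : Γ → Γ → Prop) (γ : Γ) : Prop :=
  ∀ b : M, (∀ x : Γ, B x → (Coded.code x : M) ∈ b) →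
    (∀ x y : Γ, (Coded.code x : M) ∈ b → S x y → (Coded.code y : M) ∈ b) → (Coded.code γ : M) ∈ b

omit [SetCoded M Γ] in
theorem Ind.DP {B : Γ → Prop} {S : Γ → Γ → Prop} (hB : DP M B)
    (hS : DP M (fun p : Γ × Γ => S p.1 p.2)) : DP M (Ind M B S) := by
  have hB' := @hB.lift₁
  have hS' := @DP.lift₂ _ _ _ _ _ _ _ S hS
  show Pool.Agent.MP_5db68c_lc.DP M (fun γ : Γ => ∀ b : M, (∀ x : Γ, B x → (Coded.code x : M) ∈ b) →
    (∀ x y : Γ, (Coded.code x : M) ∈ b → S x y → (Coded.code y : M) ∈ b) → (Coded.code γ : M) ∈ b)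
  infer_instance

omit hM [SetCoded M Γ] in
theorem Ind.base {B : Γ → Prop} {S : Γ → Γ → Prop} {x : Γ} (h : B x) : Ind M B S x :=
  fun _ h1 _ => h1 x h

omit hM [SetCoded M Γ] in
theorem Ind.step {B : Γ → Prop} {S : Γ → Γ → Prop} {x y : Γ} (h : Ind M B S x) (h' : S x y) :
    Ind M B S y :=
  fun b h1 h2 => h2 x y (h b h1 h2) h'

theorem Ind.induction {B : Γ → Prop} {S : Γ → Γ → Prop} {P : Γ → Prop}
    (hP : Pool.Agent.MP_5db68c_lc.DP M P) (h1 : ∀ x, B x → P x) (h2 : ∀ x y, P x → S x y → P y)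
    {x : Γ} (hx : Ind M B S x) : P x := by
  obtain ⟨b, hb⟩ := exists_subset' (M := M) P hP
  rw [← hb]
  refine hx b (fun x hx => (hb x).2 (h1 x hx)) (fun x y hx hs => ?_)
  rw [hb] at hx ⊢
  exact h2 x y hx hs

theorem Ind.inv {B : Γ → Prop} {S : Γ → Γ → Prop} (hB : Pool.Agent.MP_5db68c_lc.DP M B)
    (hS : Pool.Agent.MP_5db68c_lc.DP M (fun p : Γ × Γ => S p.1 p.2)) {x : Γ} (hx : Ind M B S x) :
    B x ∨ ∃ y, Ind M B S y ∧ S y x := by
  have hI0 := Ind.DP hB hS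
  have hI := @hI0.lift₁
  have hB' := @hB.lift₁
  have hS' := @DP.lift₂ _ _ _ _ _ _ _ S hS
  have := Ind.induction (M := M) (B := B) (S := S)
    (P := fun x => Ind M B S x ∧ (B x ∨ ∃ y, Ind M B S y ∧ S y x)) inferInstance
    (fun x hx => ⟨Ind.base hx, Or.inl hx⟩)
    (fun x y h h' => ⟨h.1.step h', Or.inr ⟨x, h.1, h'⟩⟩) hx
  exact this.2

/-- Recursion along the natural numbers of `M`. -/
theorem exists_rec (a : Γ) (h : Γ → Γ) (hh : DF M h) :
    ∃ s : N M → Γ, DF M s ∧ s N.zero = a ∧ ∀ n, s (N.succ n) = h (s n) := by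
  have hh' := @hh.lift₁
  let B : N M × Γ → Prop := fun p => p.1 = N.zero ∧ p.2 = a
  let S : N M × Γ → N M × Γ → Prop := fun p q => q.1 = N.succ p.1 ∧ q.2 = h p.2
  have hB : DP M B := by show DP M (fun p : N M × Γ => p.1 = N.zero ∧ p.2 = a); infer_instance
  have hS : DP M (fun p : (N M × Γ) × (N M × Γ) => S p.1 p.2) := by
    show DP M (fun p : (N M × Γ) × (N M × Γ) => p.2.1 = N.succ p.1.1 ∧ p.2.2 = h p.1.2)
    infer_instance
  have hI0 := Ind.DP hB hS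
  have hI := @hI0.lift₁
  have hinv : ∀ x, Ind M B S x → B x ∨ ∃ y, Ind M B S y ∧ S y x := fun x => Ind.inv hB hS
  have key : ∀ n : N M, ∃ x : Γ, Ind M B S (n, x) ∧ ∀ y : Γ, Ind M B S (n, y) → y = x := by
    refine N.induction (M := M) _ inferInstance ?_ ?_
    · refine ⟨a, Ind.base ⟨rfl, rfl⟩, fun y hy => ?_⟩
      rcases hinv _ hy with h | ⟨z, _, h, _⟩
      · exact h.2
      · exact (N.succ_ne_zero _ h.symm).elim
    · rintro n ⟨x, hx, hu⟩
      refine ⟨h x, Ind.step hx ⟨rfl, rfl⟩, fun y hy => ?_⟩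
      rcases hinv _ hy with h | ⟨⟨m, z⟩, h1, h2, h3⟩
      · exact (N.succ_ne_zero _ h.1).elim
      · have hm : m = n := (N.succ_inj h2).symm
        subst hm
        rw [show y = h z from h3, hu z h1]
  choose s hs hu using key
  refine ⟨s, ?_, ?_, fun n => ?_⟩
  · refine DF.of_rel (M := M) (R := fun n x => Ind M B S (n, x)) inferInstance hs ?_
    intro n x y hx hy
    rw [hu n x hx, hu n y hy]
  · exact (hu _ _ (Ind.base ⟨rfl, rfl⟩)).symm
  · exact (hu _ _ (Ind.step (hs n) ⟨rfl, rfl⟩)).symm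

end Ind

end Pool.Agent.MP_5db68c_lc
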