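import Pool.Agent.Lib.MP_5db68c_lc.Nat

/-!
# Reals inside a model of ZF: definability of the operations, completeness
-/

universe u

set_option synthInstance.maxSize 100000
set_option synthInstance.maxHeartbeats 400000

namespace Pool.Agent.MP_5db68c_lc

variable {M : Type u} [Membership M M] [hM : IsZF M]

variable {K : RealsIn M} {Γ : Type u} [Coded M Γ]

instance (priority := 100) DF.add {f g : Γ → El K.carrier} [hf : DF M f] [hg : DF M g] :
    DF M (fun γ => f γ + g γ) :=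
  DF.app₂ (h := fun x y : El K.carrier => x + y) (FunIn₂.DF K.add_in) hf hg

instance (priority := 90) DF.mul {f g : Γ → El K.carrier} [hf : DF M f] [hg : DF M g] :
    DF M (fun γ => f γ * g γ) :=
  DF.app₂ (h := fun x y : El K.carrier => x * y) (FunIn₂.DF K.mul_in) hf hg

instance (priority := 80) DF.div2 {f : Γ → El K.carrier} [hf : DF M f] :
    DF M (fun γ => f γ / 2) := by
  have : (fun γ => f γ / 2) = (fun γ => f γ * (2⁻¹ : El K.carrier)) := by
    funext γ; rw [div_eq_mul_inv]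
  rw [this]
  infer_instance

instance DP.le {f g : Γ → El K.carrier} [hf : DF M f] [hg : DF M g] :
    DP M (fun γ => f γ ≤ g γ) :=
  DP.app₂ (R := fun x y : El K.carrier => x ≤ y) (RelIn.DP K.le_in) hf hg

instance DP.lt {f g : Γ → El K.carrier} [hf : DF M f] [hg : DF M g] :
    DP M (fun γ => f γ < g γ) :=
  DP.congr (P := fun γ => ¬ g γ ≤ f γ) inferInstance (fun γ => by rw [not_le])

theorem exists_lub (P : El K.carrier → Prop) (hP : DP M P) (hne : ∃ x, P x)
    (hb : ∃ b, ∀ x, P x → x ≤ b) : ∃ b, IsLUB {x | P x} b := by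
  obtain ⟨s, hs⟩ := exists_subset' (M := M) P hP
  have hs' : ∀ x : El K.carrier, x.1 ∈ s ↔ P x := hs
  obtain ⟨b, hb'⟩ := K.complete s (by obtain ⟨x, hx⟩ := hne; exact ⟨x, (hs' x).2 hx⟩)
    (by obtain ⟨b, hb⟩ := hb; exact ⟨b, fun x hx => hb x ((hs' x).1 hx)⟩)
  refine ⟨b, ?_⟩
  simpa only [hs'] using hb'

theorem exists_glb (P : El K.carrier → Prop) (hP : DP M P) (hne : ∃ x, P x)
    (hb : ∃ b, ∀ x, P x → b ≤ x) : ∃ b, IsGLB {x | P x} b := by
  have hP' := @hP.lift₁
  have h1 : DP M (fun y : El K.carrier => ∀ x : El K.carrier, P x → y ≤ x) := inferInstance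
  obtain ⟨b, hb'⟩ := exists_lub _ h1
    (by obtain ⟨b, hb⟩ := hb; exact ⟨b, hb⟩)
    (by obtain ⟨x, hx⟩ := hne; exact ⟨x, fun y hy => hy x hx⟩)
  refine ⟨b, fun x hx => hb'.2 fun y hy => hy x hx, fun y hy => hb'.1 ?_⟩
  exact fun x hx => hy hx

end Pool.Agent.MP_5db68c_lc
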