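import Pool.Agent.Lib.MP_5db68c_lc.Reals

/-!
# Compact Hausdorff quasi-metric spaces inside a model of ZF: the canonical base of the uniformity
-/

universe u

set_option synthInstance.maxSize 100000
set_option synthInstance.maxHeartbeats 400000

namespace Pool.Agent.MP_5db68c_lc

variable {M : Type u} [Membership M M] [hM : IsZF M]

/-- In a directed family, a finite subfamily has an upper bound in the family. -/
theorem finite_directed (c c' : M) (hsub : ∀ U : M, U ∈ c' → U ∈ c) (hfin : FiniteIn c')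
    (hne : ∃ W : M, W ∈ c)
    (hdir : ∀ U V : M, U ∈ c → V ∈ c → ∃ W : M, W ∈ c ∧ (∀ x : M, x ∈ U → x ∈ W) ∧
      ∀ x : M, x ∈ V → x ∈ W) :
    ∃ W : M, W ∈ c ∧ ∀ U : M, U ∈ c' → ∀ x : M, x ∈ U → x ∈ W := by
  obtain ⟨w, hw, n, hn, f, hf, hbij⟩ := hfin
  have hwo : w = om M := hw.unique isOmega_om
  subst hwo
  have hf0 : DF M f := FunIn.DF hf
  have hf' := @hf0.lift₁
  have key : ∀ k : N M, ∃ W : El c, ∀ i : El n, i.1 ∈ k.1 → ∀ x : M, x ∈ (f i).1 → x ∈ W.1 := by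
    refine N.induction (M := M) _ inferInstance ?_ ?_
    · obtain ⟨W, hW⟩ := hne
      exact ⟨⟨W, hW⟩, fun i hi => (N.not_mem_zero _ hi).elim⟩
    · rintro k ⟨W, hW⟩
      by_cases hk : k.1 ∈ n
      · obtain ⟨W', h1, h2, h3⟩ := hdir W.1 (f ⟨k.1, hk⟩).1 W.2 (hsub _ (f ⟨k.1, hk⟩).2)
        refine ⟨⟨W', h1⟩, fun i hi x hx => ?_⟩
        rw [N.mem_succ] at hi
        rcases hi with hi | hi
        · exact h2 x (hW i hi x hx)
        · have : i = ⟨k.1, hk⟩ := Subtype.ext hi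
          rw [this] at hx
          exact h3 x hx
      · refine ⟨W, fun i hi x hx => ?_⟩
        rw [N.mem_succ] at hi
        rcases hi with hi | hi
        · exact hW i hi x hx
        · exact (hk (hi ▸ i.2)).elim
  obtain ⟨W, hW⟩ := key ⟨n, hn⟩
  refine ⟨W.1, W.2, fun U hU x hx => ?_⟩
  obtain ⟨i, hi⟩ := hbij.2 ⟨U, hU⟩
  refine hW i i.2 x ?_
  rw [hi]
  exact hx

variable {K : RealsIn M} {X t : M} {d : El X → El X → El K.carrier}

/-- Cluster points exist in compact quasi-metric spaces. -/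
theorem cluster (hd : IsQuasiMetric K X d) (hi : IsInduced K X t d) (hc : IsCompactIn X t)
    (F : El K.carrier → El X → Prop) (hF : DP M (fun p : El K.carrier × El X => F p.1 p.2))
    (mono : ∀ ε ε' x, ε ≤ ε' → F ε x → F ε' x) (hne : ∀ ε, 0 < ε → ∃ x, F ε x) :
    ∃ z, ∀ ε, 0 < ε → ∃ w, d z w < ε ∧ F ε w := by
  classical
  have hd0 : DF M (fun p : El X × El X => d p.1 p.2) := FunIn₂.DF hd.mem
  have hd' := @DF.lift₂ _ _ _ _ _ _ _ _ _ d hd0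
  have hF' := @DP.lift₂ _ _ _ _ _ _ _ F hF
  by_contra hcon
  push Not at hcon
  let O : El K.carrier → El X → Prop := fun ε z => ∃ r, 0 < r ∧ ∀ w, d z w < r → ¬ F ε w
  have hO : DP M (fun p : El K.carrier × El X => O p.1 p.2) := by
    show DP M (fun p : El K.carrier × El X =>
      ∃ r : El K.carrier, 0 < r ∧ ∀ w, d p.2 w < r → ¬ F p.1 w)
    infer_instance
  have hO' := @DP.lift₂ _ _ _ _ _ _ _ O hO
  -- each `O ε` is an open set
  have hopen : ∀ ε, ∃ U : M, U ∈ t ∧ ∀ x : El X, x.1 ∈ U ↔ O ε x := by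
    intro ε
    obtain ⟨U, hU⟩ := exists_el_subset (a := X) (fun x => O ε x) inferInstance
    refine ⟨U, ?_, fun x => ?_⟩
    · rw [hi]
      refine ⟨fun x hx => ((hU x).1 hx).1, fun x hx => ?_⟩
      obtain ⟨_, r, hr, h⟩ := (hU x.1).1 hx
      refine ⟨r / 2, by linarith, fun y hy => ?_⟩
      rw [hU]
      refine ⟨y.2, r / 2, by linarith, fun w hw => h w ?_⟩
      have := hd.triangle x w y
      calc d ⟨x.1, _⟩ w = d x w := rfl
        _ ≤ d x y + d y w := this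
        _ < r := by
          have h2 : d y w < r / 2 := hw
          linarith
    · rw [hU]
      exact ⟨fun h => h.2, fun h => ⟨x.2, h⟩⟩
  -- the cover
  obtain ⟨c, hc'⟩ := exists_el_subset (a := t)
    (fun U : El t => ∃ ε : El K.carrier, 0 < ε ∧ ∀ x : El X, x.1 ∈ U.1 ↔ O ε x) inferInstance
  have hcmem : ∀ ε, 0 < ε → ∃ U : M, U ∈ c ∧ ∀ x : El X, x.1 ∈ U ↔ O ε x := by
    intro ε hε
    obtain ⟨U, hU, hx⟩ := hopen ε
    exact ⟨U, (hc' U).2 ⟨hU, ε, hε, hx⟩, hx⟩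
  have hOmono : ∀ ε ε' x, ε ≤ ε' → O ε' x → O ε x := by
    rintro ε ε' x h ⟨r, hr, h'⟩
    exact ⟨r, hr, fun w hw hF => h' w hw (mono _ _ _ h hF)⟩
  have hcov : ∀ x : M, x ∈ X → ∃ U : M, U ∈ c ∧ x ∈ U := by
    intro x hx
    obtain ⟨ε, hε, h⟩ := hcon ⟨x, hx⟩
    obtain ⟨U, hU, hx'⟩ := hcmem ε hε
    exact ⟨U, hU, (hx' ⟨x, hx⟩).2 ⟨ε, hε, h⟩⟩
  obtain ⟨c', hsub, hfin, hcov'⟩ := hc c (fun U hU => ((hc' U).1 hU).1) hcov
  obtain ⟨W, hW, hWc⟩ := finite_directed c c' hsub hfin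
    (by obtain ⟨U, hU, _⟩ := hcmem 1 zero_lt_one; exact ⟨U, hU⟩) (by
      intro U V hU hV
      obtain ⟨hUt, ε, hε, h1⟩ := (hc' U).1 hU
      obtain ⟨hVt, ε', hε', h2⟩ := (hc' V).1 hV
      obtain ⟨W, hW, h3⟩ := hcmem (min ε ε') (lt_min hε hε')
      refine ⟨W, hW, fun x hx => ?_, fun x hx => ?_⟩
      · have hxX := ((hi U).1 hUt).1 x hx
        exact (h3 ⟨x, hxX⟩).2 (hOmono _ _ _ (min_le_left _ _) ((h1 ⟨x, hxX⟩).1 hx))
      · have hxX := ((hi V).1 hVt).1 x hx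
        exact (h3 ⟨x, hxX⟩).2 (hOmono _ _ _ (min_le_right _ _) ((h2 ⟨x, hxX⟩).1 hx)))
  obtain ⟨_, ε, hε, hx⟩ := (hc' W).1 hW
  obtain ⟨x, hFx⟩ := hne ε hε
  obtain ⟨U, hU, hxU⟩ := hcov' x.1 x.2
  obtain ⟨r, hr, h⟩ := (hx x).1 (hWc U hU x.1 hxU)
  exact h x (by rw [hd.self]; exact hr) hFx

omit hM in
/-- Limits are unique. -/
theorem lim_unique (hi : IsInduced K X t d) (hh : IsHausdorffIn X t)
    (p z : El X) (h : ∀ ε, 0 < ε → ∃ p', d p p' < ε ∧ d z p' < ε) : p = z := by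
  by_contra hne
  obtain ⟨U, V, hU, hV, hpU, hzV, hdis⟩ := hh p.1 z.1 p.2 z.2 (fun h => hne (Subtype.ext h))
  obtain ⟨ε, hε, h1⟩ := ((hi U).1 hU).2 p hpU
  obtain ⟨ε', hε', h2⟩ := ((hi V).1 hV).2 z hzV
  obtain ⟨p', h3, h4⟩ := h (min ε ε') (lt_min hε hε')
  exact hdis p'.1 ⟨h1 p' (lt_of_lt_of_le h3 (min_le_left _ _)),
    h2 p' (lt_of_lt_of_le h4 (min_le_right _ _))⟩

/-- The entourage `U_ε = {(x, y) : ∃ z, d z x < ε ∧ d z y < ε}`. -/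
def Ent (d : El X → El X → El K.carrier) (ε : El K.carrier) (x y : El X) : Prop :=
  ∃ z, d z x < ε ∧ d z y < ε

omit hM in
theorem Ent.symm {ε : El K.carrier} {x y : El X} (h : Ent d ε x y) : Ent d ε y x := by
  obtain ⟨z, h1, h2⟩ := h; exact ⟨z, h2, h1⟩

omit hM in
theorem Ent.mono {ε ε' : El K.carrier} {x y : El X} (h : Ent d ε x y) (hε : ε ≤ ε') :
    Ent d ε' x y := by
  obtain ⟨z, h1, h2⟩ := h; exact ⟨z, lt_of_lt_of_le h1 hε, lt_of_lt_of_le h2 hε⟩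

theorem Ent.DP (hd : IsQuasiMetric K X d) :
    DP M (fun p : (El K.carrier × El X) × El X => Ent d p.1.1 p.1.2 p.2) := by
  have hd0 : DF M (fun p : El X × El X => d p.1 p.2) := FunIn₂.DF hd.mem
  have hd' := @DF.lift₂ _ _ _ _ _ _ _ _ _ d hd0
  unfold Ent
  infer_instance

theorem claim1 (hd : IsQuasiMetric K X d) (hi : IsInduced K X t d) (hc : IsCompactIn X t)
    (hh : IsHausdorffIn X t) (p q : El X)
    (h : ∀ ε, 0 < ε → ∃ p' q', d p p' < ε ∧ d q q' < ε ∧ Ent d ε p' q') : p = q := by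
  have hd0 : DF M (fun p : El X × El X => d p.1 p.2) := FunIn₂.DF hd.mem
  have hd' := @DF.lift₂ _ _ _ _ _ _ _ _ _ d hd0
  obtain ⟨z, hz⟩ := cluster hd hi hc
    (fun ε z => ∃ p' q', d p p' < ε ∧ d q q' < ε ∧ d z p' < ε ∧ d z q' < ε) inferInstance
    (by
      rintro ε ε' x hε ⟨p', q', h1, h2, h3, h4⟩
      exact ⟨p', q', h1.trans_le hε, h2.trans_le hε, h3.trans_le hε, h4.trans_le hε⟩)
    (by
      intro ε hε
      obtain ⟨p', q', h1, h2, z, h3, h4⟩ := h ε hε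
      exact ⟨z, p', q', h1, h2, h3, h4⟩)
  have h1 : p = z := by
    refine lim_unique hi hh p z fun ε hε => ?_
    obtain ⟨w, hw, p', q', h1, h2, h3, h4⟩ := hz (ε / 2) (by linarith)
    refine ⟨p', by linarith, ?_⟩
    have := hd.triangle z p' w
    linarith
  have h2 : q = z := by
    refine lim_unique hi hh q z fun ε hε => ?_
    obtain ⟨w, hw, p', q', h1, h2, h3, h4⟩ := hz (ε / 2) (by linarith)
    refine ⟨q', by linarith, ?_⟩
    have := hd.triangle z q' w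
    linarith
  rw [h1, h2]

theorem claim2 (hd : IsQuasiMetric K X d) (hi : IsInduced K X t d) (hc : IsCompactIn X t)
    (hh : IsHausdorffIn X t) (ε : El K.carrier) (hε : 0 < ε) :
    ∃ δ, 0 < δ ∧ ∀ x s y, Ent d δ x s → Ent d δ s y → Ent d ε x y := by
  have hd0 : DF M (fun p : El X × El X => d p.1 p.2) := FunIn₂.DF hd.mem
  have hd' := @DF.lift₂ _ _ _ _ _ _ _ _ _ d hd0
  have hE := @DP.lift₃ _ _ _ _ _ _ _ _ _ (Ent d) (Ent.DP hd)
  by_contra hcon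
  push Not at hcon
  obtain ⟨t₀, ht₀⟩ := cluster hd hi hc
    (fun δ s => ∃ x y, Ent d δ x s ∧ Ent d δ s y ∧ ¬ Ent d ε x y) inferInstance
    (by
      rintro δ δ' s hδ ⟨x, y, h1, h2, h3⟩
      exact ⟨x, y, h1.mono hδ, h2.mono hδ, h3⟩)
    (by
      intro δ hδ
      obtain ⟨x, s, y, h1, h2, h3⟩ := hcon δ hδ
      exact ⟨s, x, y, h1, h2, h3⟩)
  obtain ⟨x₀, hx₀⟩ := cluster hd hi hc
    (fun δ x => ∃ s, d t₀ s < δ ∧ Ent d δ x s ∧ ∃ y, Ent d δ s y ∧ ¬ Ent d ε x y) inferInstance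
    (by
      rintro δ δ' x hδ ⟨s, h0, h1, y, h2, h3⟩
      exact ⟨s, h0.trans_le hδ, h1.mono hδ, y, h2.mono hδ, h3⟩)
    (by
      intro δ hδ
      obtain ⟨s, h0, x, y, h1, h2, h3⟩ := ht₀ δ hδ
      exact ⟨x, s, h0, h1, y, h2, h3⟩)
  have e1 : x₀ = t₀ := by
    refine claim1 hd hi hc hh _ _ fun δ hδ => ?_
    obtain ⟨x, h0, s, h1, h2, _⟩ := hx₀ δ hδ
    exact ⟨x, s, h0, h1, h2⟩
  subst e1
  obtain ⟨y₀, hy₀⟩ := cluster hd hi hc
    (fun δ y => ∃ x s, d x₀ x < δ ∧ d x₀ s < δ ∧ Ent d δ x s ∧ Ent d δ s y ∧ ¬ Ent d ε x y)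
    inferInstance
    (by
      rintro δ δ' x hδ ⟨x', s, h0, h0', h1, h2, h3⟩
      exact ⟨x', s, h0.trans_le hδ, h0'.trans_le hδ, h1.mono hδ, h2.mono hδ, h3⟩)
    (by
      intro δ hδ
      obtain ⟨x, h0, s, h1, h2, y, h3, h4⟩ := hx₀ δ hδ
      exact ⟨y, x, s, h0, h1, h2, h3, h4⟩)
  have e2 : x₀ = y₀ := by
    refine claim1 hd hi hc hh _ _ fun δ hδ => ?_
    obtain ⟨y, h0, x, s, h1, h2, h3, h4, _⟩ := hy₀ δ hδ
    exact ⟨s, y, h2, h0, h4⟩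
  subst e2
  obtain ⟨y, h0, x, s, h1, h2, h3, h4, h5⟩ := hy₀ ε hε
  exact h5 ⟨x₀, h1, h0⟩

theorem claim3 (hd : IsQuasiMetric K X d) (hi : IsInduced K X t d) (hc : IsCompactIn X t)
    (hh : IsHausdorffIn X t) (V : M) (hV : V ∈ t) (x : El X) (hx : x.1 ∈ V) :
    ∃ ε, 0 < ε ∧ ∀ y : El X, Ent d ε x y → y.1 ∈ V := by
  have hd0 : DF M (fun p : El X × El X => d p.1 p.2) := FunIn₂.DF hd.mem
  have hd' := @DF.lift₂ _ _ _ _ _ _ _ _ _ d hd0
  have hE := @DP.lift₃ _ _ _ _ _ _ _ _ _ (Ent d) (Ent.DP hd)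
  by_contra hcon
  push Not at hcon
  obtain ⟨y₀, hy₀⟩ := cluster hd hi hc
    (fun ε y => Ent d ε x y ∧ y.1 ∉ V) inferInstance
    (by
      rintro δ δ' s hδ ⟨h1, h2⟩
      exact ⟨h1.mono hδ, h2⟩)
    (by
      intro δ hδ
      obtain ⟨y, h1, h2⟩ := hcon δ hδ
      exact ⟨y, h1, h2⟩)
  have e1 : x = y₀ := by
    refine claim1 hd hi hc hh _ _ fun δ hδ => ?_
    obtain ⟨y, h0, h1, h2⟩ := hy₀ δ hδ
    exact ⟨x, y, by rw [hd.self]; exact hδ, h0, h1⟩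
  subst e1
  obtain ⟨ε, hε, h⟩ := ((hi V).1 hV).2 x hx
  obtain ⟨y, h0, h1, h2⟩ := hy₀ ε hε
  exact h2 (h y h0)

end Pool.Agent.MP_5db68c_lc
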